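import Pool.Agent.W_MP_49a69b_al.Gamma

/-!
# The function `b` on `GL₂(O_{K,S})`

`b(g) = 1` if the first edge of the path from `v₀` to `g v₀` in the tree is the one given by the
point `[1 : θ]` of the projective line over the residue field, and `b(g) = 0` otherwise. In terms of
the primitive representation `g = M / πⁿ`: the columns of `M` modulo `π` are multiples of `(1, θ)`.
-/

namespace Pool.Agent.W_MP_49a69b_al

open Polynomial IsDedekindDomain Matrix

variable {F : Type} [Field F] {π : F[X]} {v : HeightOneSpectrum F[X]}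

/-- The columns of `M` modulo `π` are multiples of `(1, θ)`. -/
def ColIn (π : F[X]) (θ : AdjoinRoot π) (M : Matrix (Fin 2) (Fin 2) F[X]) : Prop :=
  ∀ j, AdjoinRoot.mk π (M 1 j) = θ * AdjoinRoot.mk π (M 0 j)

/-- The primitive representation of `g` has columns in `[1 : θ]`. -/
def InCone (π : F[X]) (θ : AdjoinRoot π) (g : Gam v) : Prop :=
  ∃ n M, Rep π g n M ∧ Prim π M ∧ ColIn π θ M

open Classical in
/-- The indicator function of the cone. -/
noncomputable def bfun (k : Type) [CommRing k] (π : F[X]) (θ : AdjoinRoot π) (g : Gam v) : k :=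
  if InCone π θ g then 1 else 0

theorem inCone_iff [Finite F] (hπ : Irreducible π) {θ : AdjoinRoot π} {g : Gam v} {n : ℕ}
    {M : Matrix (Fin 2) (Fin 2) F[X]} (h : Rep π g n M) (hp : Prim π M) :
    InCone π θ g ↔ ColIn π θ M := by
  constructor
  · rintro ⟨m, N, h1, h2, h3⟩
    obtain ⟨-, rfl⟩ := prim_unique hπ h h1 hp h2
    exact h3
  · intro h3
    exact ⟨n, M, h, hp, h3⟩

/-- The linear algebra of first edges. -/
theorem cone_aux {k : Type} [CommRing k] [IsDomain k] {θ : k} {A B : Matrix (Fin 2) (Fin 2) k} (hA : A ≠ 0)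
    (hB : B ≠ 0) (h : A.adjugate * B = 0) :
    (∀ j, A 1 j = θ * A 0 j) ↔ (∀ j, B 1 j = θ * B 0 j) := by
  have e0 : ∀ j, A 1 1 * B 0 j = A 0 1 * B 1 j := by
    intro j
    have h1 := congrFun (congrFun h 0) j
    rw [Matrix.adjugate_fin_two, Matrix.mul_apply, Fin.sum_univ_two] at h1
    simp only [Matrix.of_apply, Matrix.cons_val_zero, Matrix.cons_val_one, Matrix.zero_apply,
      Matrix.cons_val_zero] at h1
    linear_combination h1
  have e1 : ∀ j, A 1 0 * B 0 j = A 0 0 * B 1 j := by
    intro j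
    have h1 := congrFun (congrFun h 1) j
    rw [Matrix.adjugate_fin_two, Matrix.mul_apply, Fin.sum_univ_two] at h1
    simp only [Matrix.of_apply, Matrix.cons_val_zero, Matrix.cons_val_one, Matrix.zero_apply,
      Matrix.cons_val_zero] at h1
    linear_combination -h1
  constructor
  · intro hc j
    have h0 := hc 0
    have h1 := hc 1
    by_cases ha : A 0 0 = 0
    · by_cases hb : A 0 1 = 0
      · exfalso
        apply hA
        ext i j
        fin_cases i <;> fin_cases j
        · exact ha
        · exact hb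
        · show A 1 0 = 0
          rw [h0, ha, mul_zero]
        · show A 1 1 = 0
          rw [h1, hb, mul_zero]
      · have := e0 j
        rw [h1] at this
        apply mul_left_cancel₀ hb
        linear_combination -this
    · have := e1 j
      rw [h0] at this
      apply mul_left_cancel₀ ha
      linear_combination -this
  · intro hc
    have hex : ∃ j, B 0 j ≠ 0 := by
      by_contra hcon
      push Not at hcon
      apply hB
      ext i j
      fin_cases i
      · exact hcon j
      · show B 1 j = 0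
        rw [hc j, hcon j, mul_zero]
    obtain ⟨j, hj⟩ := hex
    intro i
    fin_cases i
    · show A 1 0 = θ * A 0 0
      apply mul_right_cancel₀ hj
      have := e1 j
      rw [hc j] at this
      linear_combination this
    · show A 1 1 = θ * A 0 1
      apply mul_right_cancel₀ hj
      have := e0 j
      rw [hc j] at this
      linear_combination this

/-- Reduction of matrices modulo `π`. -/
noncomputable abbrev red (π : F[X]) : Matrix (Fin 2) (Fin 2) F[X] →+*
    Matrix (Fin 2) (Fin 2) (AdjoinRoot π) := (AdjoinRoot.mk π).mapMatrix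

theorem prim_iff {M : Matrix (Fin 2) (Fin 2) F[X]} : Prim π M ↔ red π M ≠ 0 := by
  constructor
  · rintro ⟨i, j, h⟩ hz
    apply h
    rw [← AdjoinRoot.mk_eq_zero]
    have := congrFun (congrFun hz i) j
    simpa using this
  · intro h
    by_contra hcon
    simp only [Prim, not_exists, not_not] at hcon
    apply h
    ext i j
    have := AdjoinRoot.mk_eq_zero.mpr (hcon i j)
    simpa using this

theorem colIn_iff {θ : AdjoinRoot π} {M : Matrix (Fin 2) (Fin 2) F[X]} :
    ColIn π θ M ↔ ∀ j, (red π M) 1 j = θ * (red π M) 0 j := Iff.rfl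

section

variable [Finite F] (hπ : Irreducible π) (hv : v.asIdeal = Ideal.span {π})

include hπ in
/-- If the cone condition differs for `g` and `h`, then the level is additive. -/
theorem key {θ : AdjoinRoot π} {g h : Gam v} {n m : ℕ} {M N : Matrix (Fin 2) (Fin 2) F[X]}
    (hg : Rep π g n M) (hgp : Prim π M) (hh : Rep π h m N) (hhp : Prim π N) {c : F} (hc0 : c ≠ 0)
    (hc : (mat g).det = inc F (C c)) (hne : ¬ (InCone π θ g ↔ InCone π θ h)) :
    Rep π (g⁻¹ * h) (n + m) (C c⁻¹ • M.adjugate * N) ∧ Prim π (C c⁻¹ • M.adjugate * N) := by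
  have : Fact (Irreducible π) := ⟨hπ⟩
  refine ⟨(rep_inv hg hc0 hc).mul hh, ?_⟩
  rw [prim_iff]
  intro hz
  apply hne
  rw [inCone_iff hπ hg hgp, inCone_iff hπ hh hhp, colIn_iff, colIn_iff]
  have h6 : (red π M).adjugate * red π N = red π (M.adjugate * N) := by
    rw [RingHom.map_mul (red π), RingHom.map_adjugate]
  apply cone_aux (prim_iff.mp hgp) (prim_iff.mp hhp)
  rw [h6]
  have h1 : ∀ (a : F[X]) (P : Matrix (Fin 2) (Fin 2) F[X]),
      red π (a • P) = AdjoinRoot.mk π a • red π P := by
    intro a P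
    ext i j
    simp
  rw [Matrix.smul_mul, h1] at hz
  have h2 : AdjoinRoot.mk π (C c⁻¹) ≠ 0 := by
    intro h3
    rw [AdjoinRoot.mk_eq_zero] at h3
    have h4 : IsUnit (C c⁻¹ : F[X]) := by
      rw [isUnit_C]; exact isUnit_iff_ne_zero.mpr (inv_ne_zero hc0)
    exact hπ.not_isUnit (isUnit_of_dvd_unit h3 h4)
  have h5 := smul_eq_zero.mp hz
  exact h5.resolve_left h2

theorem bfun_ne_iff {k : Type} [CommRing k] [Nontrivial k] {θ : AdjoinRoot π} {g h : Gam v} :
    (bfun k π θ g ≠ bfun k π θ h) ↔ ¬ (InCone π θ g ↔ InCone π θ h) := by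
  unfold bfun
  by_cases h1 : InCone π θ g <;> by_cases h2 : InCone π θ h <;> simp [h1, h2]

include hπ hv in
theorem bfun_finite {k : Type} [CommRing k] [Nontrivial k] (θ : AdjoinRoot π) (g g' : Gam v) :
    {μ : Gam v | bfun k π θ (μ * g) ≠ bfun k π θ (μ * g')}.Finite := by
  obtain ⟨L, P, hP, hPp⟩ := exists_prim_rep hπ hv (g⁻¹ * g')
  have h1 := ((finite_rep hπ (v := v) L).image (fun κ => κ * g⁻¹))
  refine h1.subset ?_
  intro μ hμ
  have hμ' : ¬ (InCone π θ (μ * g) ↔ InCone π θ (μ * g')) := bfun_ne_iff.mp hμ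
  obtain ⟨n, M, hM, hMp⟩ := exists_prim_rep hπ hv (μ * g)
  obtain ⟨m, N, hN, hNp⟩ := exists_prim_rep hπ hv (μ * g')
  obtain ⟨c, hc0, hc⟩ := det_const hπ hv (μ * g)
  obtain ⟨h2, h3⟩ := key hπ hM hMp hN hNp hc0 hc hμ'
  have h4 : (μ * g)⁻¹ * (μ * g') = g⁻¹ * g' := by group
  rw [h4] at h2
  have h5 := prim_unique hπ h2 hP h3 hPp
  refine ⟨μ * g, ⟨n, by omega, M, hM⟩, by group⟩

end

end Pool.Agent.W_MP_49a69b_al
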