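import Mathlib

/-!
# The cohomology ring of a discrete group, by homogeneous cochains

A homogeneous cochain of degree `n` of the group `G` with coefficients in the commutative ring `k`
is a function on `G^{n+1}` that is invariant under left translation by `G`. We treat all degrees at
once: a cochain is a function `F` on lists of elements of `G`, whose restriction to the lists of
length `n + 1` is its component of degree `n`.
-/

namespace Pool.Agent.W_MP_49a69b_al

open Finset

variable {k : Type} [CommRing k] {G : Type} [Group G]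

/-- The cup product of homogeneous cochains,
`(F ∪ E)(g₀, …, gₙ) = ∑ᵢ F(g₀, …, gᵢ) E(gᵢ, …, gₙ)`. -/
def cup (F E : List G → k) (l : List G) : k :=
  ∑ i ∈ range l.length, F (l.take (i + 1)) * E (l.drop i)

/-- The differential of homogeneous cochains,
`(δF)(g₀, …, gₙ) = ∑ᵢ (-1)ⁱ F(g₀, …, gᵢ₋₁, gᵢ₊₁, …, gₙ)`. -/
def diff (F : List G → k) (l : List G) : k :=
  ∑ i ∈ range l.length, (-1) ^ i * F (l.eraseIdx i)

/-- `F` is a homogeneous cochain of `G` (a sum of components of finitely many degrees): a function
on nonempty lists (value `0` at the empty list), invariant under left translation, and vanishing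
on all sufficiently long lists. -/
def IsCochain (F : List G → k) : Prop :=
  F [] = 0 ∧ (∀ (g : G) (l : List G), F (l.map (g * ·)) = F l) ∧
    ∃ N, ∀ l : List G, N < l.length → F l = 0

variable (k G) in
/-- The homogeneous cochains of `G` with coefficients in `k` (direct sum over all degrees
`n ≥ 0`). -/
structure Cochain where
  /-- the function on lists -/
  val : List G → k
  prop : IsCochain val

/-- The unit cochain (constant function `1` in degree `0`). -/
def unitCochain (l : List G) : k := if l.length = 1 then 1 else 0

/-! ### Recursive formulas -/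

section rec

omit [Group G]

@[simp] theorem cup_nil (F E : List G → k) : cup F E [] = 0 := by simp [cup]

theorem cup_cons (F E : List G → k) (a : G) (t : List G) :
    cup F E (a :: t) = F [a] * E (a :: t) + cup (fun u => F (a :: u)) E t := by
  rw [cup, List.length_cons, sum_range_succ', add_comm]
  simp [cup]

@[simp] theorem diff_nil (F : List G → k) : diff F [] = 0 := by simp [diff]

theorem diff_cons (F : List G → k) (a : G) (t : List G) :
    diff F (a :: t) = F t - diff (fun u => F (a :: u)) t := by
  rw [diff, List.length_cons, sum_range_succ', add_comm, diff, sub_eq_add_neg, ← sum_neg_distrib]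
  simp [pow_succ]

theorem cup_add_left (F F' E : List G → k) (l : List G) :
    cup (fun u => F u + F' u) E l = cup F E l + cup F' E l := by
  simp [cup, add_mul, sum_add_distrib]

theorem cup_add_right (F E E' : List G → k) (l : List G) :
    cup F (fun u => E u + E' u) l = cup F E l + cup F E' l := by
  simp [cup, mul_add, sum_add_distrib]

theorem cup_sub_left (F F' E : List G → k) (l : List G) :
    cup (fun u => F u - F' u) E l = cup F E l - cup F' E l := by
  simp [cup, sub_mul, sum_sub_distrib]

theorem cup_sub_right (F E E' : List G → k) (l : List G) :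
    cup F (fun u => E u - E' u) l = cup F E l - cup F E' l := by
  simp [cup, mul_sub, sum_sub_distrib]

theorem cup_smul_left (c : k) (F E : List G → k) (l : List G) :
    cup (fun u => c * F u) E l = c * cup F E l := by
  simp [cup, mul_sum, mul_assoc]

theorem diff_add (F E : List G → k) (l : List G) :
    diff (fun u => F u + E u) l = diff F l + diff E l := by
  simp [diff, mul_add, sum_add_distrib]

theorem diff_sub (F E : List G → k) (l : List G) :
    diff (fun u => F u - E u) l = diff F l - diff E l := by
  simp [diff, mul_sub, sum_sub_distrib]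

theorem diff_smul (c : k) (F : List G → k) (l : List G) :
    diff (fun u => c * F u) l = c * diff F l := by
  simp only [diff, mul_sum]
  exact sum_congr rfl (fun i _ => by ring)

theorem cup_zero_left (E : List G → k) (l : List G) : cup (fun _ => 0) E l = 0 := by
  simp [cup]

theorem diff_zero (l : List G) : diff (fun _ : List G => (0 : k)) l = 0 := by
  simp [diff]

theorem cup_eq_zero {F : List G → k} (h : ∀ u, u ≠ [] → F u = 0) (E : List G → k) (l : List G) :
    cup F E l = 0 := by
  rw [cup]
  refine sum_eq_zero (fun i hi => ?_)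
  rw [mem_range] at hi
  rw [h, zero_mul]
  intro hc
  have := congrArg List.length hc
  rw [List.length_take, List.length_nil] at this
  omega

/-- Associativity. -/
theorem cup_assoc (F E D : List G → k) (l : List G) :
    cup (cup F E) D l = cup F (cup E D) l := by
  induction l generalizing F with
  | nil => simp
  | cons a t ih =>
    rw [cup_cons, cup_cons F (cup E D), cup_cons, cup_nil, add_zero, cup_cons E D]
    have h1 : (fun u => cup F E (a :: u)) =
        fun u => F [a] * E (a :: u) + cup (fun u => F (a :: u)) E u := by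
      funext u; exact cup_cons F E a u
    rw [h1, cup_add_left, cup_smul_left]
    have h2 := ih (fun u => F (a :: u))
    rw [show cup (fun u => cup (fun u => F (a :: u)) E u) D t =
      cup (cup (fun u => F (a :: u)) E) D t from rfl, h2]
    ring

theorem unit_cup (E : List G → k) (hE : E [] = 0) (l : List G) : cup unitCochain E l = E l := by
  cases l with
  | nil => simp [hE]
  | cons a t =>
    rw [cup_cons, cup_eq_zero, add_zero]
    · simp [unitCochain]
    · intro u hu
      simp [unitCochain, hu]

theorem cup_unit (F : List G → k) (l : List G) (hl : l ≠ []) : cup F unitCochain l = F l := by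
  induction l generalizing F with
  | nil => exact absurd rfl hl
  | cons a t ih =>
    rw [cup_cons]
    by_cases ht : t = []
    · subst ht; simp [unitCochain]
    · rw [ih _ ht]
      simp [unitCochain, ht]

/-- Sign operator: multiplication by `(-1)ⁿ` in degree `n`. -/
def sgn (F : List G → k) (l : List G) : k := (-1) ^ (l.length + 1) * F l

theorem sgn_sgn (F : List G → k) : sgn (sgn F) = F := by
  funext l
  rw [sgn, sgn, ← mul_assoc, ← pow_add]
  rw [Even.neg_one_pow ⟨l.length + 1, rfl⟩, one_mul]

theorem length_eraseIdx_lt {l : List G} {i : ℕ} (hi : i < l.length) :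
    (l.eraseIdx i).length = l.length - 1 := by
  rw [List.length_eraseIdx, if_pos hi]

theorem diff_sgn (F : List G → k) (l : List G) : diff (sgn F) l = - sgn (diff F) l := by
  rw [diff, sgn, diff, mul_sum, ← sum_neg_distrib]
  refine sum_congr rfl (fun i hi => ?_)
  rw [mem_range] at hi
  rw [sgn, length_eraseIdx_lt hi]
  have : l.length - 1 + 1 = l.length := by omega
  rw [this, pow_succ]
  ring

theorem leibniz_aux (F E : List G → k) (hE : E [] = 0) (l : List G) :
    diff (cup F E) l = cup (diff F) E l + cup (sgn F) (diff E) l - F [] * E l := by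
  induction l generalizing F with
  | nil => simp [hE]
  | cons a t ih =>
    rw [diff_cons, cup_cons (diff F), cup_cons (sgn F)]
    have h1 : (fun u => cup F E (a :: u)) =
        fun u => F [a] * E (a :: u) + cup (fun u => F (a :: u)) E u := by
      funext u; exact cup_cons F E a u
    have h2 : (fun u => diff F (a :: u)) = fun u => F u - diff (fun u => F (a :: u)) u := by
      funext u; exact diff_cons F a u
    have h3 : (fun u => sgn F (a :: u)) = fun u => (-1) * sgn (fun u => F (a :: u)) u := by
      funext u; simp only [sgn, List.length_cons]; rw [pow_succ]; ring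
    rw [h1, diff_add, diff_smul, h2, cup_sub_left, h3, cup_smul_left, diff_cons E]
    have ih' := ih (fun u => F (a :: u))
    have e1 : diff (fun u => cup (fun u => F (a :: u)) E u) t =
      diff (cup (fun u => F (a :: u)) E) t := rfl
    have e2 : cup (fun u => F u) E t = cup F E t := rfl
    have e3 : cup (fun u => diff (fun u => F (a :: u)) u) E t =
      cup (diff (fun u => F (a :: u))) E t := rfl
    have e4 : cup (fun u => sgn (fun u => F (a :: u)) u) (diff E) t =
      cup (sgn (fun u => F (a :: u))) (diff E) t := rfl
    rw [e1, e2, e3, e4, ih', diff_cons F, diff_nil]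
    have e5 : sgn F [a] = F [a] := by simp [sgn]
    rw [e5]
    ring

/-- Leibniz rule. -/
theorem leibniz (F E : List G → k) (hF : F [] = 0) (hE : E [] = 0) (l : List G) :
    diff (cup F E) l = cup (diff F) E l + cup (sgn F) (diff E) l := by
  rw [leibniz_aux F E hE, hF]; ring

theorem diff_unit (l : List G) : diff (unitCochain : List G → k) l = 0 := by
  cases l with
  | nil => simp
  | cons a t =>
    rw [diff_cons]
    cases t with
    | nil => simp [unitCochain]
    | cons b s =>
      have h1 : (fun u => (unitCochain (a :: u) : k)) = fun u => if u = [] then 1 else 0 := by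
        funext u; simp [unitCochain]
      rw [h1, diff_cons]
      have h2 : (fun u : List G => if b :: u = [] then (1 : k) else 0) = fun _ => 0 := by
        funext u; simp
      rw [h2, diff_zero]
      simp [unitCochain]

end rec

/-! ### The ring of cochains -/

theorem cup_mem {F E : List G → k} (hF : IsCochain F) (hE : IsCochain E) :
    IsCochain (cup F E) := by
  obtain ⟨h1, h2, N, h3⟩ := hF
  obtain ⟨h1', h2', N', h3'⟩ := hE
  refine ⟨by simp, fun g l => ?_, N + N', fun l hl => ?_⟩
  · simp only [cup, List.length_map, ← List.map_take, ← List.map_drop, h2, h2']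
  · rw [cup]
    refine sum_eq_zero (fun i hi => ?_)
    rw [mem_range] at hi
    by_cases hN : N < i + 1
    · rw [h3 _ (by rw [List.length_take]; omega), zero_mul]
    · rw [h3' _ (by rw [List.length_drop]; omega), mul_zero]

theorem diff_mem {F : List G → k} (hF : IsCochain F) : IsCochain (diff F) := by
  obtain ⟨h1, h2, N, h3⟩ := hF
  refine ⟨by simp, fun g l => ?_, N + 1, fun l hl => ?_⟩
  · simp only [diff, List.length_map]
    refine sum_congr rfl (fun i _ => ?_)
    rw [List.eraseIdx_map, h2]
  · rw [diff]
    refine sum_eq_zero (fun i hi => ?_)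
    rw [mem_range] at hi
    rw [h3 _ (by rw [length_eraseIdx_lt hi]; omega), mul_zero]

theorem sgn_mem {F : List G → k} (hF : IsCochain F) : IsCochain (sgn F) := by
  obtain ⟨h1, h2, N, h3⟩ := hF
  refine ⟨by simp [sgn, h1], fun g l => ?_, N, fun l hl => by rw [sgn, h3 l hl, mul_zero]⟩
  simp only [sgn, List.length_map, h2]

theorem unit_mem : IsCochain (unitCochain : List G → k) := by
  refine ⟨by simp [unitCochain], fun g l => by simp [unitCochain], 1, fun l hl => ?_⟩
  simp only [unitCochain]
  rw [if_neg (by omega)]

theorem zero_isCochain : IsCochain (fun _ : List G => (0 : k)) :=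
  ⟨rfl, fun _ _ => rfl, 0, fun _ _ => rfl⟩

theorem add_isCochain {F E : List G → k} (hF : IsCochain F) (hE : IsCochain E) :
    IsCochain (fun l => F l + E l) := by
  obtain ⟨h1, h2, N, h3⟩ := hF
  obtain ⟨h1', h2', N', h3'⟩ := hE
  refine ⟨by simp [h1, h1'], fun g l => by simp [h2, h2'], max N N', fun l hl => ?_⟩
  simp [h3 l (by omega), h3' l (by omega)]

theorem neg_isCochain {F : List G → k} (hF : IsCochain F) : IsCochain (fun l => - F l) := by
  obtain ⟨h1, h2, N, h3⟩ := hF
  exact ⟨by simp [h1], fun g l => by simp [h2], N, fun l hl => by simp [h3 l hl]⟩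

instance : Zero (Cochain k G) := ⟨⟨fun _ => 0, zero_isCochain⟩⟩

instance : Add (Cochain k G) := ⟨fun F E => ⟨fun l => F.val l + E.val l, add_isCochain F.2 E.2⟩⟩

instance : Neg (Cochain k G) := ⟨fun F => ⟨fun l => - F.val l, neg_isCochain F.2⟩⟩

/-- Multiplication of cochains is the cup product. -/
instance : Mul (Cochain k G) := ⟨fun F E => ⟨cup F.val E.val, cup_mem F.2 E.2⟩⟩

instance : One (Cochain k G) := ⟨⟨unitCochain, unit_mem⟩⟩

theorem cochain_ext {F E : Cochain k G} (h : ∀ l, F.val l = E.val l) : F = E := by
  cases F; cases E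
  congr 1
  exact funext h

theorem ax_add_assoc (F E D : Cochain k G) : F + E + D = F + (E + D) :=
  cochain_ext fun _ => add_assoc _ _ _

theorem ax_zero_add (F : Cochain k G) : 0 + F = F := cochain_ext fun _ => zero_add _

theorem ax_neg_add (F : Cochain k G) : -F + F = 0 := cochain_ext fun _ => neg_add_cancel _

theorem ax_mul_assoc (F E D : Cochain k G) : F * E * D = F * (E * D) :=
  cochain_ext fun l => cup_assoc F.1 E.1 D.1 l

theorem ax_one_mul (E : Cochain k G) : 1 * E = E := cochain_ext fun l => unit_cup E.1 E.2.1 l

theorem ax_mul_one (F : Cochain k G) : F * 1 = F := cochain_ext fun l => by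
  show cup F.1 unitCochain l = F.1 l
  by_cases hl : l = []
  · subst hl; rw [cup_nil, F.2.1]
  · exact cup_unit F.1 l hl

theorem ax_left_distrib (F E E' : Cochain k G) : F * (E + E') = F * E + F * E' :=
  cochain_ext fun l => cup_add_right F.1 E.1 E'.1 l

theorem ax_right_distrib (F F' E : Cochain k G) : (F + F') * E = F * E + F' * E :=
  cochain_ext fun l => cup_add_left F.1 F'.1 E.1 l

/-- The ring of cochains. -/
instance : Ring (Cochain k G) :=
  Ring.ofMinimalAxioms ax_add_assoc ax_zero_add ax_neg_add ax_mul_assoc ax_one_mul ax_mul_one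
    ax_left_distrib ax_right_distrib

theorem coe_mul (F E : Cochain k G) : (F * E).1 = cup F.1 E.1 := rfl

theorem coe_one : (1 : Cochain k G).1 = unitCochain := rfl

theorem coe_add (F E : Cochain k G) : (F + E).1 = fun l => F.1 l + E.1 l := rfl

theorem coe_zero : (0 : Cochain k G).1 = fun _ => 0 := rfl

theorem coe_neg (F : Cochain k G) : (-F).1 = fun l => -F.1 l := rfl

theorem coe_nsmul (n : ℕ) (F : Cochain k G) (l : List G) : (n • F).1 l = n • F.1 l := by
  induction n with
  | zero => rw [zero_smul, zero_smul]; rfl
  | succ n ih =>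
    rw [succ_nsmul, succ_nsmul, coe_add]
    show (n • F).val l + F.val l = _
    rw [ih]

variable (k G) in
/-- Cocycles: cochains with vanishing differential. -/
structure Cocycle where
  /-- the cochain -/
  val : Cochain k G
  closed : ∀ l, diff val.val l = 0

theorem zero_closed (l : List G) : diff (0 : Cochain k G).val l = 0 := diff_zero l

theorem one_closed (l : List G) : diff (1 : Cochain k G).val l = 0 := diff_unit l

theorem add_closed (F E : Cocycle k G) (l : List G) : diff (F.val + E.val).val l = 0 := by
  rw [coe_add, diff_add, F.2, E.2, add_zero]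

theorem neg_closed (F : Cocycle k G) (l : List G) : diff (-F.val).val l = 0 := by
  have h1 : (-F.1).1 = fun u => (-1) * F.1.1 u := by rw [coe_neg]; funext u; ring
  rw [h1, diff_smul, F.2, mul_zero]

theorem mul_closed (F E : Cocycle k G) (l : List G) : diff (F.val * E.val).val l = 0 := by
  rw [coe_mul, leibniz _ _ F.1.2.1 E.1.2.1]
  have h1 : diff F.1.1 = fun _ => 0 := funext F.2
  have h2 : diff E.1.1 = fun _ => 0 := funext E.2
  rw [h1, h2, cup_zero_left]
  simp [cup]

instance : Zero (Cocycle k G) := ⟨⟨0, zero_closed⟩⟩

instance : One (Cocycle k G) := ⟨⟨1, one_closed⟩⟩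

instance : Add (Cocycle k G) := ⟨fun F E => ⟨F.val + E.val, add_closed F E⟩⟩

instance : Neg (Cocycle k G) := ⟨fun F => ⟨-F.val, neg_closed F⟩⟩

instance : Mul (Cocycle k G) := ⟨fun F E => ⟨F.val * E.val, mul_closed F E⟩⟩

theorem cocycle_ext {F E : Cocycle k G} (h : F.val = E.val) : F = E := by
  cases F; cases E
  congr 1

theorem cx_add_assoc (F E D : Cocycle k G) : F + E + D = F + (E + D) :=
  cocycle_ext (ax_add_assoc F.1 E.1 D.1)

theorem cx_zero_add (F : Cocycle k G) : 0 + F = F := cocycle_ext (ax_zero_add F.1)

theorem cx_neg_add (F : Cocycle k G) : -F + F = 0 := cocycle_ext (ax_neg_add F.1)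

theorem cx_mul_assoc (F E D : Cocycle k G) : F * E * D = F * (E * D) :=
  cocycle_ext (ax_mul_assoc F.1 E.1 D.1)

theorem cx_one_mul (E : Cocycle k G) : 1 * E = E := cocycle_ext (ax_one_mul E.1)

theorem cx_mul_one (F : Cocycle k G) : F * 1 = F := cocycle_ext (ax_mul_one F.1)

theorem cx_left_distrib (F E E' : Cocycle k G) : F * (E + E') = F * E + F * E' :=
  cocycle_ext (ax_left_distrib F.1 E.1 E'.1)

theorem cx_right_distrib (F F' E : Cocycle k G) : (F + F') * E = F * E + F' * E :=
  cocycle_ext (ax_right_distrib F.1 F'.1 E.1)

/-- The ring of cocycles. -/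
instance : Ring (Cocycle k G) :=
  Ring.ofMinimalAxioms cx_add_assoc cx_zero_add cx_neg_add cx_mul_assoc cx_one_mul cx_mul_one
    cx_left_distrib cx_right_distrib

theorem cocycle_coe_nsmul (n : ℕ) (F : Cocycle k G) (l : List G) :
    (n • F).1.1 l = n • F.1.1 l := by
  induction n with
  | zero => rw [zero_smul, zero_smul]; rfl
  | succ n ih =>
    rw [succ_nsmul, succ_nsmul]
    show (n • F).val.val l + F.val.val l = _
    rw [ih]

/-- Two cocycles are cohomologous if their difference is the coboundary of a cochain. -/
def IsCohomologous (F E : Cocycle k G) : Prop :=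
  ∃ D : Cochain k G, ∀ l, F.1.val l - E.1.val l = diff D.val l

theorem isCohomologous_equiv : Equivalence (IsCohomologous (k := k) (G := G)) := by
  refine ⟨fun F => ⟨0, fun l => ?_⟩, ?_, ?_⟩
  · rw [coe_zero, diff_zero, sub_self]
  · rintro F E ⟨D, hD⟩
    refine ⟨-D, fun l => ?_⟩
    have h1 : (-D).1 = fun u => (-1) * D.1 u := by rw [coe_neg]; funext u; ring
    rw [h1, diff_smul, ← hD]; ring
  · rintro F E C ⟨D, hD⟩ ⟨D', hD'⟩
    refine ⟨D + D', fun l => ?_⟩
    rw [coe_add, diff_add, ← hD, ← hD']; ring

theorem isCohomologous_add {F F' E E' : Cocycle k G} (h : IsCohomologous F F')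
    (h' : IsCohomologous E E') : IsCohomologous (F + E) (F' + E') := by
  obtain ⟨D, hD⟩ := h
  obtain ⟨D', hD'⟩ := h'
  refine ⟨D + D', fun l => ?_⟩
  rw [coe_add, diff_add, ← hD, ← hD']
  show (F.1.1 l + E.1.1 l) - (F'.1.1 l + E'.1.1 l) = _
  ring

theorem isCohomologous_mul {F F' E E' : Cocycle k G} (h : IsCohomologous F F')
    (h' : IsCohomologous E E') : IsCohomologous (F * E) (F' * E') := by
  obtain ⟨D, hD⟩ := h
  obtain ⟨D', hD'⟩ := h'
  -- F E - F' E' = (F - F') E + F' (E - E') = δ(D E) + δ(σF' D')
  refine ⟨D * E.1 + ⟨sgn F'.1.1, sgn_mem F'.1.2⟩ * D', fun l => ?_⟩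
  rw [coe_add, diff_add, coe_mul, coe_mul, leibniz _ _ D.2.1 E.1.2.1,
    leibniz _ _ (sgn_mem F'.1.2).1 D'.2.1]
  have h1 : diff E.1.1 = fun _ => 0 := funext E.2
  have h2 : diff (sgn F'.1.1) = fun _ => 0 := by
    funext u
    have h3 : diff F'.1.1 = fun _ => 0 := funext F'.2
    rw [diff_sgn, h3]; simp [sgn]
  have h4 : diff D.1 = fun l => F.1.1 l - F'.1.1 l := funext fun l => (hD l).symm
  have h5 : diff D'.1 = fun l => E.1.1 l - E'.1.1 l := funext fun l => (hD' l).symm
  rw [h1, h2, cup_zero_left, sgn_sgn, h4, h5, cup_sub_left, cup_sub_right]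
  have h6 : cup (sgn D.1) (fun _ => 0) l = 0 := by simp [cup]
  rw [h6]
  show cup F.1.1 E.1.1 l - cup F'.1.1 E'.1.1 l = _
  have h7 : ∀ A B : List G → k, cup (fun l => A l) B l = cup A B l := fun _ _ => rfl
  rw [h7, h7]
  ring

variable (k G) in
/-- The congruence relation on the ring of cocycles. -/
def cohomologous : RingCon (Cocycle k G) where
  r := IsCohomologous
  iseqv := isCohomologous_equiv
  add' := isCohomologous_add
  mul' := isCohomologous_mul

variable (k G) in
/-- The cohomology ring `H^•(G; k) = ⨁ₙ Hⁿ(G; k)` of the discrete group `G` with trivial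
coefficients `k`, with the cup product. -/
def Cohomology : Type := (cohomologous k G).Quotient

instance : Ring (Cohomology k G) :=
  (inferInstance : Ring (cohomologous k G).Quotient)

/-- The class of a cocycle. -/
def cls : Cocycle k G →+* Cohomology k G := (cohomologous k G).mk'

theorem cls_surj (x : Cohomology k G) : ∃ F : Cocycle k G, cls F = x :=
  (cohomologous k G).mk'_surjective x

theorem cls_eq_iff (F E : Cocycle k G) :
    cls F = cls E ↔ ∃ D : Cochain k G, ∀ l, F.1.1 l - E.1.1 l = diff D.1 l :=
  (cohomologous k G).eq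

theorem cls_eq_zero_iff (F : Cocycle k G) :
    cls F = 0 ↔ ∃ D : Cochain k G, ∀ l, F.1.1 l = diff D.1 l := by
  rw [← map_zero cls, cls_eq_iff]
  have h0 : ∀ l, (0 : Cocycle k G).1.1 l = 0 := fun l => rfl
  constructor
  · rintro ⟨D, hD⟩
    exact ⟨D, fun l => by rw [← hD, h0, sub_zero]⟩
  · rintro ⟨D, hD⟩
    exact ⟨D, fun l => by rw [← hD, h0, sub_zero]⟩

variable (k G) in
/-- The subset `Hⁿ(G; k)` of the cohomology ring: classes of cocycles concentrated in degree
`n`, that is, on lists of length `n + 1`. -/
def degree (n : ℕ) : Set (Cohomology k G) :=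
  {x | ∃ F : Cocycle k G, (∀ l : List G, l.length ≠ n + 1 → F.val.val l = 0) ∧ cls F = x}

/-! ### Restriction -/

section res

variable {G' : Type} [Group G']

theorem res_isCochain (f : G' →* G) {F : List G → k} (hF : IsCochain F) :
    IsCochain (fun l : List G' => F (l.map f)) := by
  obtain ⟨h1, h2, N, h3⟩ := hF
  refine ⟨h1, fun g l => ?_, N, fun l hl => h3 _ (by rwa [List.length_map])⟩
  have : (l.map (g * ·)).map f = (l.map f).map (f g * ·) := by
    rw [List.map_map, List.map_map]
    congr 1
    funext x
    simp
  show F ((l.map (g * ·)).map f) = F (l.map f)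
  rw [this, h2]

/-- Restriction of a cochain along a homomorphism `f : G' → G` of groups. -/
def pullback (f : G' →* G) (F : Cochain k G) : Cochain k G' :=
  ⟨fun l => F.val (l.map f), res_isCochain f F.prop⟩

theorem diff_pullback (f : G' →* G) (F : Cochain k G) (l : List G') :
    diff (pullback f F).1 l = diff F.1 (l.map f) := by
  show diff (fun u => F.1 (u.map f)) l = _
  simp only [diff, List.length_map, List.eraseIdx_map]

theorem pullback_closed (f : G' →* G) (F : Cocycle k G) (l : List G') :
    diff (pullback f F.val).val l = 0 := by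
  rw [diff_pullback]; exact F.2 _

/-- Restriction of a cocycle. -/
def resCocycle (f : G' →* G) (F : Cocycle k G) : Cocycle k G' :=
  ⟨pullback f F.val, pullback_closed f F⟩

theorem resCocycle_one (f : G' →* G) : resCocycle f (1 : Cocycle k G) = 1 :=
  cocycle_ext (cochain_ext fun l => by
    show unitCochain (l.map f) = unitCochain l
    simp [unitCochain])

theorem resCocycle_mul (f : G' →* G) (F E : Cocycle k G) :
    resCocycle f (F * E) = resCocycle f F * resCocycle f E :=
  cocycle_ext (cochain_ext fun l => by
    show cup F.1.1 E.1.1 (l.map f) = cup (fun u => F.1.1 (u.map f)) (fun u => E.1.1 (u.map f)) l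
    simp only [cup, List.length_map, List.map_take, List.map_drop])

theorem res_wellDefined (f : G' →* G) (F E : Cocycle k G) (h : cohomologous k G F E) :
    cls (resCocycle f F) = cls (resCocycle f E) := by
  obtain ⟨D, hD⟩ := h
  rw [cls_eq_iff]
  refine ⟨pullback f D, fun l => ?_⟩
  rw [diff_pullback, ← hD]
  rfl

/-- The underlying function of the restriction `H^•(G; k) → H^•(G'; k)`. -/
def resFun (f : G' →* G) : Cohomology k G → Cohomology k G' :=
  Quotient.lift (fun F => cls (resCocycle f F)) (res_wellDefined f)

theorem resFun_cls (f : G' →* G) (F : Cocycle k G) : resFun f (cls F) = cls (resCocycle f F) := rfl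

theorem resFun_one (f : G' →* G) : resFun f (1 : Cohomology k G) = 1 := by
  rw [← map_one (cls (k := k) (G := G)), resFun_cls, resCocycle_one, map_one]

theorem resFun_zero (f : G' →* G) : resFun f (0 : Cohomology k G) = 0 := by
  rw [← map_zero (cls (k := k) (G := G)), resFun_cls]
  rfl

theorem resFun_mul (f : G' →* G) (x y : Cohomology k G) :
    resFun f (x * y) = resFun f x * resFun f y := by
  obtain ⟨F, rfl⟩ := cls_surj x
  obtain ⟨E, rfl⟩ := cls_surj y
  rw [← map_mul, resFun_cls, resFun_cls, resFun_cls, resCocycle_mul, map_mul]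

theorem resFun_add (f : G' →* G) (x y : Cohomology k G) :
    resFun f (x + y) = resFun f x + resFun f y := by
  obtain ⟨F, rfl⟩ := cls_surj x
  obtain ⟨E, rfl⟩ := cls_surj y
  rw [← map_add, resFun_cls, resFun_cls, resFun_cls, ← map_add]
  rfl

/-- The restriction homomorphism `H^•(G; k) → H^•(G'; k)` along `f : G' → G`. -/
def res (f : G' →* G) : Cohomology k G →+* Cohomology k G' where
  toFun := resFun f
  map_one' := resFun_one f
  map_mul' := resFun_mul f
  map_zero' := resFun_zero f
  map_add' := resFun_add f

theorem res_cls (f : G' →* G) (F : Cocycle k G) : res f (cls F) = cls (resCocycle f F) := rfl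

end res

end Pool.Agent.W_MP_49a69b_al
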