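import Pool.Agent.W_MP_49a69b_al.Coh

/-!
# `H⁴` of a finite cyclic group has dimension at most one
-/

namespace Pool.Agent.W_MP_49a69b_al

open CategoryTheory Finset

section general

variable {k G : Type} [CommRing k] [Group G]

theorem exists_of_pi_eq_zero (A : Rep.{0} k G) (n : ℕ) (f : (Fin (n + 1) → G) → A)
    (h : inhomogeneousCochains.d A (n + 1) f = 0)
    (hz : groupCohomology.π A (n + 1) (groupCohomology.cocyclesMk f h) = 0) :
    ∃ e : (Fin n → G) → A, inhomogeneousCochains.d A n e = f := by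
  let K := groupCohomology.inhomogeneousCochains A
  let S : ShortComplex (ModuleCat k) :=
    ShortComplex.mk (K.toCycles n (n + 1)) (K.homologyπ (n + 1))
      (K.toCycles_comp_homologyπ n (n + 1))
  have hS : S.Exact := ShortComplex.exact_of_g_is_cokernel S
    (K.homologyIsCokernel n (n + 1) (by simp))
  rw [ShortComplex.moduleCat_exact_iff] at hS
  obtain ⟨e, he⟩ := hS (groupCohomology.cocyclesMk f h) hz
  refine ⟨e, ?_⟩
  have h1 := groupCohomology.iCocycles_mk f h
  rw [← h1, ← he]
  have h2 : K.toCycles n (n + 1) ≫ K.iCycles (n + 1) = inhomogeneousCochains.d A n := by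
    rw [K.toCycles_i n (n + 1)]
    exact groupCohomology.inhomogeneousCochains.d_def A n
  rw [← h2]
  rfl

/-- The inhomogeneous differential with trivial coefficients. -/
theorem d_trivial (n : ℕ) (f : (Fin n → G) → k) (g : Fin (n + 1) → G) :
    inhomogeneousCochains.d (Rep.trivial k G k) n f g =
      f (fun i => g i.succ) + ∑ j : Fin (n + 1), (-1 : k) ^ ((j : ℕ) + 1) *
        f (Fin.contractNth j (· * ·) g) := by
  rw [inhomogeneousCochains.d_hom_apply]
  rfl

/-- The inhomogeneous cochain associated with a homogeneous one. -/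
def toInh (n : ℕ) (F : List G → k) (g : Fin n → G) : k := F (List.ofFn (Fin.partialProd g))

/-- The homogeneous cochain associated with an inhomogeneous one. -/
def fromInh (n : ℕ) (e : (Fin n → G) → k) (l : List G) : k :=
  if h : l.length = n + 1 then
    e (fun i => (l[(i : ℕ)]'(by omega))⁻¹ * l[(i : ℕ) + 1]'(by omega)) else 0

theorem fromInh_ofFn (n : ℕ) (e : (Fin n → G) → k) (P : Fin (n + 1) → G) :
    fromInh n e (List.ofFn P) = e (fun i => (P i.castSucc)⁻¹ * P i.succ) := by
  rw [fromInh, dif_pos (by simp)]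
  congr 1
  funext i
  rw [List.getElem_ofFn, List.getElem_ofFn]
  rfl

theorem toInh_fromInh (n : ℕ) (e : (Fin n → G) → k) : toInh n (fromInh n e) = e := by
  funext g
  rw [toInh, fromInh_ofFn]
  congr 1
  funext i
  exact Fin.partialProd_right_inv g i

theorem ofFn_eraseIdx (n : ℕ) (P : Fin (n + 1) → G) (i : Fin (n + 1)) :
    (List.ofFn P).eraseIdx i = List.ofFn (P ∘ i.succAbove) := by
  apply List.ext_getElem
  · rw [length_eraseIdx_lt (by rw [List.length_ofFn]; exact i.2), List.length_ofFn,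
      List.length_ofFn]
    rfl
  · intro j h1 h2
    rw [List.getElem_ofFn, List.getElem_eraseIdx]
    simp only [Function.comp_apply, List.getElem_ofFn]
    rw [List.length_ofFn] at h2
    split_ifs with h
    · congr 1
      rw [Fin.succAbove_of_castSucc_lt _ _ (by rw [Fin.lt_def]; exact h)]
      rfl
    · congr 1
      rw [Fin.succAbove_of_le_castSucc _ _ (by rw [Fin.le_def]; simp only [Fin.val_castSucc]; omega)]
      rfl

theorem diff_ofFn (n : ℕ) (F : List G → k) (hF : ∀ (g : G) (l : List G), F (l.map (g * ·)) = F l)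
    (g : Fin (n + 1) → G) :
    diff F (List.ofFn (Fin.partialProd g)) =
      inhomogeneousCochains.d (Rep.trivial k G k) n (toInh n F) g := by
  rw [d_trivial, diff, List.length_ofFn, sum_range_succ', add_comm]
  congr 1
  · rw [pow_zero, one_mul]
    have h1 := ofFn_eraseIdx (n + 1) (Fin.partialProd g) 0
    rw [show ((0 : Fin (n + 1 + 1)) : ℕ) = 0 from rfl] at h1
    rw [h1]
    have h2 : (List.ofFn (Fin.partialProd g ∘ (0 : Fin (n + 1 + 1)).succAbove)) =
        (List.ofFn (Fin.partialProd (fun i => g i.succ))).map (g 0 * ·) := by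
      rw [List.map_ofFn]
      congr 1
      funext i
      simp only [Function.comp_apply, Fin.succAbove_zero]
      exact Fin.partialProd_succ' g i
    rw [h2, hF]
    rfl
  · rw [← Fin.sum_univ_eq_sum_range (fun i => (-1 : k) ^ (i + 1) *
      F ((List.ofFn (Fin.partialProd g)).eraseIdx (i + 1))) (n + 1)]
    refine sum_congr rfl (fun j _ => ?_)
    congr 1
    have h1 := ofFn_eraseIdx (n + 1) (Fin.partialProd g) j.succ
    rw [Fin.val_succ] at h1
    rw [h1, toInh, Fin.partialProd_contractNth]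

theorem exists_partialProd (n : ℕ) (l : List G) (hl : l.length = n + 1) :
    ∃ (a : G) (g : Fin n → G), l = (List.ofFn (Fin.partialProd g)).map (a * ·) := by
  let P : Fin (n + 1) → G := fun i => l[(i : ℕ)]'(by omega)
  have hP : l = List.ofFn P := by
    apply List.ext_getElem
    · rw [hl, List.length_ofFn]
    · intro i h1 h2
      rw [List.getElem_ofFn]
  cases n with
  | zero =>
    refine ⟨P 0, Fin.elim0, ?_⟩
    rw [hP, List.map_ofFn]
    congr 1
    funext i
    have : i = 0 := Fin.ext (by omega)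
    subst this
    simp
  | succ m =>
    refine ⟨P 0, fun i => (P i.castSucc)⁻¹ * P i.succ, ?_⟩
    rw [List.map_ofFn]
    conv_lhs => rw [hP]
    congr 1
    have h1 : ∀ i : Fin (m + 1 + 1),
        P i = P 0 * Fin.partialProd (fun i : Fin (m + 1) => (P i.castSucc)⁻¹ * P i.succ) i := by
      intro i
      refine Fin.inductionOn i (by simp) (fun j hj => ?_)
      rw [Fin.partialProd_succ, ← mul_assoc, ← hj, mul_inv_cancel_left]
    funext i
    exact h1 i

theorem fromInh_mem (n : ℕ) (e : (Fin n → G) → k) : IsCochain (fromInh n e) := by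
  refine ⟨by simp [fromInh], fun g l => ?_, n + 1, fun l hl => ?_⟩
  · simp only [fromInh, List.length_map]
    split_ifs with h
    · congr 1
      funext i
      simp [mul_assoc]
    · rfl
  · rw [fromInh, dif_neg (by omega)]

/-- Homogeneous cocycles give inhomogeneous cocycles. -/
theorem d_toInh {n : ℕ} {F : List G → k}
    (hF : ∀ (g : G) (l : List G), F (l.map (g * ·)) = F l) (hd : ∀ l, diff F l = 0) :
    inhomogeneousCochains.d (Rep.trivial k G k) n (toInh n F) = 0 := by
  funext g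
  exact (diff_ofFn n F hF g).symm.trans (hd _)

/-- If the inhomogeneous cochain of `F` is a coboundary, so is `F`. -/
theorem exists_diff {n : ℕ} {F : List G → k}
    (hF : ∀ (g : G) (l : List G), F (l.map (g * ·)) = F l)
    (hdeg : ∀ l : List G, l.length ≠ n + 1 + 1 → F l = 0)
    (e : (Fin n → G) → k)
    (he : inhomogeneousCochains.d (Rep.trivial k G k) n e = toInh (n + 1) F) :
    ∃ D : Cochain k G, ∀ l, F l = diff D.1 l := by
  refine ⟨⟨fromInh n e, fromInh_mem n e⟩, fun l => ?_⟩
  show F l = diff (fromInh n e) l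
  have hinv := (fromInh_mem (k := k) (G := G) n e).2.1
  by_cases hl : l.length = n + 1 + 1
  · obtain ⟨a, g, rfl⟩ := exists_partialProd (n + 1) l hl
    have h1 : diff (fromInh n e) ((List.ofFn (Fin.partialProd g)).map (a * ·)) =
        diff (fromInh n e) (List.ofFn (Fin.partialProd g)) :=
      (diff_mem (fromInh_mem n e)).2.1 a _
    rw [hF, h1, diff_ofFn n _ hinv, toInh_fromInh, he]
    rfl
  · rw [hdeg l hl, diff]
    symm
    refine sum_eq_zero (fun i hi => ?_)
    rw [mem_range] at hi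
    rw [fromInh, dif_neg, mul_zero]
    rw [length_eraseIdx_lt hi]
    omega

end general

section cyclic

variable {C : Type} [CommGroup C] [Fintype C]

theorem pi_surjective (ℓ : ℕ) [Fact ℓ.Prime] (g : C) (hg : ∀ x, x ∈ Subgroup.zpowers g) :
    Function.Surjective (Rep.FiniteCyclicGroup.groupCohomologyπEven
      (Rep.trivial (ZMod ℓ) C (ZMod ℓ)) g hg 4 (by decide)) := by
  rw [← ModuleCat.epi_iff_surjective]
  have h1 : Epi ((Rep.FiniteCyclicGroup.normHomCompSub
    (Rep.trivial (ZMod ℓ) C (ZMod ℓ)) g).moduleCatCyclesIso.inv) := inferInstance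
  have h2 : Epi (Rep.FiniteCyclicGroup.normHomCompSub
    (Rep.trivial (ZMod ℓ) C (ZMod ℓ)) g).homologyπ := inferInstance
  have h3 : Epi (Rep.FiniteCyclicGroup.groupCohomologyIsoEven
    (Rep.trivial (ZMod ℓ) C (ZMod ℓ)) g hg 4 (by decide)).inv := inferInstance
  exact epi_comp' h1 (epi_comp' h2 h3)

/-- Any two elements of `H⁴(C; F_ℓ)` (Mathlib version) are linearly dependent. -/
theorem dependent (ℓ : ℕ) [Fact ℓ.Prime] (g : C) (hg : ∀ x, x ∈ Subgroup.zpowers g)
    (x y : groupCohomology (Rep.trivial (ZMod ℓ) C (ZMod ℓ)) 4) :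
    ∃ s t : ZMod ℓ, (s ≠ 0 ∨ t ≠ 0) ∧ s • x + t • y = 0 := by
  obtain ⟨a, rfl⟩ := pi_surjective ℓ g hg x
  obtain ⟨b, rfl⟩ := pi_surjective ℓ g hg y
  by_cases h : (a.1 : ZMod ℓ) = 0 ∧ (b.1 : ZMod ℓ) = 0
  · refine ⟨1, 0, Or.inl one_ne_zero, ?_⟩
    have ha : a = 0 := Subtype.ext h.1
    rw [ha, map_zero, smul_zero, zero_smul, add_zero]
  · refine ⟨(b.1 : ZMod ℓ), -(a.1 : ZMod ℓ), ?_, ?_⟩
    · by_cases h1 : (b.1 : ZMod ℓ) = 0
      · right
        rw [neg_ne_zero]
        exact fun h2 => h ⟨h2, h1⟩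
      · exact Or.inl h1
    · rw [← map_smul, ← map_smul, ← map_add]
      have : (b.1 : ZMod ℓ) • a + (-(a.1 : ZMod ℓ)) • b = 0 := by
        apply Subtype.ext
        show (b.1 : ZMod ℓ) * (a.1 : ZMod ℓ) + (-(a.1 : ZMod ℓ)) * (b.1 : ZMod ℓ) = 0
        ring
      rw [this, map_zero]

/-- Any two elements of `H⁴(C; F_ℓ)` are linearly dependent. -/
theorem degree_four_dependent (ℓ : ℕ) [Fact ℓ.Prime] [IsCyclic C]
    (x y : Cohomology (ZMod ℓ) C) (hx : x ∈ degree (ZMod ℓ) C 4) (hy : y ∈ degree (ZMod ℓ) C 4) :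
    ∃ s t : ℕ, ((s : ZMod ℓ) ≠ 0 ∨ (t : ZMod ℓ) ≠ 0) ∧
      (s : Cohomology (ZMod ℓ) C) * x + (t : Cohomology (ZMod ℓ) C) * y = 0 := by
  obtain ⟨g, hg⟩ := IsCyclic.exists_generator (α := C)
  obtain ⟨F, hF, rfl⟩ := hx
  obtain ⟨E, hE, rfl⟩ := hy
  let A := Rep.trivial (ZMod ℓ) C (ZMod ℓ)
  have dF : inhomogeneousCochains.d A 4 (toInh 4 F.1.1) = 0 := d_toInh F.1.2.2.1 F.2
  have dE : inhomogeneousCochains.d A 4 (toInh 4 E.1.1) = 0 := d_toInh E.1.2.2.1 E.2
  obtain ⟨s, t, hst, h⟩ := dependent ℓ g hg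
    (groupCohomology.π A 4 (groupCohomology.cocyclesMk (toInh 4 F.1.1) dF))
    (groupCohomology.π A 4 (groupCohomology.cocyclesMk (toInh 4 E.1.1) dE))
  refine ⟨s.val, t.val, by simpa using hst, ?_⟩
  -- the combination as a function on lists
  let W : List C → ZMod ℓ := fun l => s * F.1.1 l + t * E.1.1 l
  have hWinv : ∀ (g : C) (l : List C), W (l.map (g * ·)) = W l := by
    intro g l
    show s * F.1.1 _ + t * E.1.1 _ = _
    rw [F.1.2.2.1, E.1.2.2.1]
  have hWd : ∀ l, diff W l = 0 := by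
    intro l
    show diff (fun u => s * F.1.1 u + t * E.1.1 u) l = 0
    rw [diff_add, diff_smul, diff_smul, F.2, E.2, mul_zero, mul_zero, add_zero]
  have dW : inhomogeneousCochains.d A 4 (toInh 4 W) = 0 := d_toInh hWinv hWd
  have h1 : groupCohomology.cocyclesMk (A := A) (toInh 4 W) dW =
      s • groupCohomology.cocyclesMk (toInh 4 F.1.1) dF +
        t • groupCohomology.cocyclesMk (toInh 4 E.1.1) dE := by
    apply (ModuleCat.mono_iff_injective (groupCohomology.iCocycles A 4)).1 inferInstance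
    rw [map_add, map_smul, map_smul]
    rw [groupCohomology.iCocycles_mk, groupCohomology.iCocycles_mk, groupCohomology.iCocycles_mk]
    rfl
  have h2 : groupCohomology.π A 4 (groupCohomology.cocyclesMk (toInh 4 W) dW) = 0 := by
    rw [h1, map_add, map_smul, map_smul]
    exact h
  obtain ⟨e, he⟩ := exists_of_pi_eq_zero A 3 (toInh 4 W) dW h2
  obtain ⟨D, hD⟩ := exists_diff (n := 3) hWinv (by
    intro l hl
    show s * F.1.1 l + t * E.1.1 l = 0
    rw [hF l hl, hE l hl, mul_zero, mul_zero, add_zero]) e he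
  have h3 : (s.val : Cohomology (ZMod ℓ) C) * cls F + (t.val : Cohomology (ZMod ℓ) C) * cls E =
      cls (s.val • F + t.val • E) := by
    rw [map_add, map_nsmul, map_nsmul, nsmul_eq_mul, nsmul_eq_mul]
  rw [h3, cls_eq_zero_iff]
  refine ⟨D, fun l => ?_⟩
  rw [← hD]
  have h4 : (s.val • F + t.val • E).1.1 l = (s.val • F).1.1 l + (t.val • E).1.1 l := rfl
  rw [h4, cocycle_coe_nsmul, cocycle_coe_nsmul]
  show _ = s * F.1.1 l + t * E.1.1 l
  rw [nsmul_eq_mul, nsmul_eq_mul, ZMod.natCast_zmod_val, ZMod.natCast_zmod_val]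

end cyclic

end Pool.Agent.W_MP_49a69b_al
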