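import Mathlib

/-!
# Elementary facts on finite fields used for the choice of the place and of the point `θ`
-/

namespace Pool.Agent.W_MP_49a69b_al

open Polynomial

section frob

variable {F : Type} [Field F] [Fintype F] {L : Type} [Field L] [Algebra F L]

/-- The Frobenius. -/
noncomputable abbrev Phi (F : Type) [Field F] [Fintype F] (L : Type) [Field L] [Algebra F L] :
    L →ₐ[F] L := FiniteField.frobeniusAlgHom F L

theorem phi_apply (z : L) : Phi F L z = z ^ Fintype.card F := rfl

theorem phi_phi_of_quadratic {z : L} {s t : F}
    (h : z ^ 2 + algebraMap F L s * z + algebraMap F L t = 0) : Phi F L (Phi F L z) = z := by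
  have h1 := congrArg (Phi F L) h
  simp only [map_add, map_mul, map_pow, map_zero, AlgHom.commutes] at h1
  have h2 := congrArg (Phi F L) h1
  simp only [map_add, map_mul, map_pow, map_zero, AlgHom.commutes] at h2
  by_cases hzw : Phi F L z = z
  · rw [hzw, hzw]
  set w := Phi F L z with hw
  set w2 := Phi F L w with hw2
  have h3 : algebraMap F L s = -(z + w) := by
    have h4 : (z - w) * (z + w + algebraMap F L s) = 0 := by linear_combination h - h1
    rcases mul_eq_zero.mp h4 with h5 | h5
    · exact absurd (sub_eq_zero.mp h5).symm hzw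
    · linear_combination h5
  have h4 : (w2 - z) * (w2 - w) = 0 := by
    rw [h3] at h h2
    linear_combination h2 - h
  rcases mul_eq_zero.mp h4 with h5 | h5
  · exact sub_eq_zero.mp h5
  · exfalso
    have h6 : Phi F L w = Phi F L z := by rw [← hw2, sub_eq_zero.mp h5]
    exact hzw ((Phi F L).injective h6)

variable {τ Q : L} (hτ : Phi F L (Phi F L τ) ≠ τ) (hQ : Phi F L (Phi F L Q) = Q)

include hτ hQ in
theorem theta_not_fixed : Phi F L (Phi F L (Q + τ)) ≠ Q + τ := by
  rw [map_add, map_add, hQ]
  intro h
  exact hτ (add_left_cancel h)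

include hτ hQ in
/-- Only scalars fix the point `[1 : θ]`. -/
theorem theta_stab {a b c d : F} (h : algebraMap F L c + algebraMap F L d * (Q + τ) =
    (Q + τ) * (algebraMap F L a + algebraMap F L b * (Q + τ))) : b = 0 ∧ c = 0 ∧ a = d := by
  have hθ := theta_not_fixed hτ hQ
  by_cases hb : b = 0
  · subst hb
    rw [map_zero, zero_mul, add_zero] at h
    by_cases had : a = d
    · subst had
      refine ⟨rfl, ?_, rfl⟩
      have h1 : algebraMap F L c = 0 := by linear_combination h
      exact (map_eq_zero_iff _ (algebraMap F L).injective).mp h1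
    · exfalso
      apply hθ
      have h1 : algebraMap F L (a - d) ≠ 0 := by
        rw [Ne, map_eq_zero_iff _ (algebraMap F L).injective]
        exact sub_ne_zero.mpr had
      have h2 : Q + τ = algebraMap F L (c / (a - d)) := by
        rw [map_div₀, eq_div_iff h1, map_sub]
        linear_combination -h
      rw [h2, AlgHom.commutes, AlgHom.commutes]
  · exfalso
    apply hθ
    have hb' : algebraMap F L b ≠ 0 := by
      rwa [Ne, map_eq_zero_iff _ (algebraMap F L).injective]
    apply phi_phi_of_quadratic (s := (a - d) / b) (t := -c / b)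
    rw [map_div₀, map_div₀, map_sub, map_neg]
    field_simp
    linear_combination -h

include hτ hQ in
/-- The points `[1 : Q]` and `[1 : θ]` are in different orbits. -/
theorem theta_orbit {a b c d : F} (hdet : a * d - b * c ≠ 0)
    (h : algebraMap F L c + algebraMap F L d * Q =
      (Q + τ) * (algebraMap F L a + algebraMap F L b * Q)) : False := by
  have hθ := theta_not_fixed hτ hQ
  apply hθ
  by_cases h0 : algebraMap F L a + algebraMap F L b * Q = 0
  · exfalso
    rw [h0, mul_zero] at h
    apply hdet
    have h1 : algebraMap F L (a * d - b * c) = 0 := by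
      rw [map_sub, map_mul, map_mul]
      linear_combination (algebraMap F L d) * h0 - (algebraMap F L b) * h
    exact (map_eq_zero_iff _ (algebraMap F L).injective).mp h1
  · have h2 : Q + τ = (algebraMap F L c + algebraMap F L d * Q) /
        (algebraMap F L a + algebraMap F L b * Q) := by
      rw [eq_div_iff h0]; exact h.symm
    rw [h2]
    simp only [map_div₀, map_add, map_mul, AlgHom.commutes, hQ]

end frob

/-- The polynomial `(T² + rT)² + u(T² + rT) + v`. -/
noncomputable def quartic {F : Type} [Field F] (r u v : F) : F[X] :=
  (X ^ 2 + C r * X) ^ 2 + C u * (X ^ 2 + C r * X) + C v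

theorem quartic_natDegree {F : Type} [Field F] (r u v : F) : (quartic r u v).natDegree = 4 := by
  unfold quartic
  compute_degree!

theorem quartic_monic {F : Type} [Field F] (r u v : F) : (quartic r u v).Monic := by
  unfold quartic
  monicity!

theorem root_not_fixed {F : Type} [Field F] [Fintype F] {π : F[X]} [Fact (Irreducible π)]
    (h4 : π.natDegree = 4) :
    Phi F (AdjoinRoot π) (Phi F (AdjoinRoot π) (AdjoinRoot.root π)) ≠ AdjoinRoot.root π := by
  intro h
  have h1 : π ∣ X ^ (Nat.card F) ^ 2 - X := by
    rw [← AdjoinRoot.mk_eq_zero, map_sub, map_pow, AdjoinRoot.mk_X, sub_eq_zero]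
    rw [phi_apply, phi_apply, ← pow_mul] at h
    rw [Nat.card_eq_fintype_card, pow_two]
    exact h
  have h2 := (Fact.out : Irreducible π).natDegree_dvd_of_dvd_X_pow_card_pow_sub_X h1
  rw [h4] at h2
  omega

/-- Over every finite field there is an irreducible quartic of the required form. -/
theorem exists_quartic (F : Type) [Field F] [Finite F] :
    ∃ r u v : F, Irreducible (quartic r u v) := by
  classical
  have : Fintype F := Fintype.ofFinite F
  obtain ⟨p, hp⟩ := CharP.exists F
  have : Fact (Nat.Prime p) := ⟨CharP.char_is_prime F p⟩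
  let L := FiniteField.Extension F p 4
  have : Finite L := inferInstance
  have hcard : Nat.card L = Nat.card F ^ 4 := FiniteField.natCard_extension F p 4
  have : Fintype L := Fintype.ofFinite L
  have hord : orderOf (Phi F L) = 4 := by
    rw [FiniteField.orderOf_frobeniusAlgHom, FiniteField.finrank_extension]
  have hne : (Phi F L) ^ 2 ≠ 1 := by
    intro h
    have := orderOf_dvd_of_pow_eq_one h
    rw [hord] at this
    omega
  have h4 : ∀ z : L, Phi F L (Phi F L (Phi F L (Phi F L z))) = z := by
    intro z
    have h : (Phi F L) ^ orderOf (Phi F L) = 1 := pow_orderOf_eq_one _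
    rw [hord] at h
    exact DFunLike.congr_fun h z
  obtain ⟨z, hz⟩ : ∃ z : L, Phi F L (Phi F L z) ≠ z := by
    by_contra hcon
    push Not at hcon
    apply hne
    ext z
    exact hcon z
  -- the generator
  obtain ⟨T, r, hT, hTr⟩ : ∃ (T : L) (r : F), Phi F L (Phi F L T) ≠ T ∧
      Phi F L (Phi F L T) = -T - algebraMap F L r := by
    by_cases h2 : (2 : L) = 0
    · -- characteristic two
      let s : L := z + Phi F L (Phi F L z)
      have hneg : ∀ a : L, -a = a := by
        intro a
        have : (2 : L) * a = 0 := by rw [h2, zero_mul]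
        linear_combination -this
      have hs0 : s ≠ 0 := by
        intro h
        apply hz
        have h3 : Phi F L (Phi F L z) = -z := by linear_combination h
        rw [h3, hneg]
      have hs : Phi F L (Phi F L s) = s := by
        show Phi F L (Phi F L (z + Phi F L (Phi F L z))) = z + Phi F L (Phi F L z)
        rw [map_add, map_add, h4, add_comm]
      have hT : Phi F L (Phi F L (z / s)) = z / s + 1 := by
        rw [map_div₀, map_div₀, hs, div_add_one hs0]
        congr 1
        show Phi F L (Phi F L z) = z + (z + Phi F L (Phi F L z))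
        have : (2 : L) * z = 0 := by rw [h2, zero_mul]
        linear_combination -this
      refine ⟨z / s, 1, ?_, ?_⟩
      · rw [hT]
        intro h
        exact one_ne_zero (add_eq_left.mp h)
      · rw [hT, map_one, hneg]
        have : (2 : L) = 0 := h2
        linear_combination this
    · refine ⟨z - Phi F L (Phi F L z), 0, ?_, ?_⟩
      · rw [map_sub, map_sub, h4]
        intro h
        apply hz
        have h3 : (2 : L) * (Phi F L (Phi F L z) - z) = 0 := by linear_combination h
        rcases mul_eq_zero.mp h3 with h5 | h5
        · exact absurd h5 h2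
        · exact sub_eq_zero.mp h5
      · rw [map_sub, map_sub, h4, map_zero]; ring
  -- the quadratic element
  let Q : L := T ^ 2 + algebraMap F L r * T
  have hQ : Phi F L (Phi F L Q) = Q := by
    show Phi F L (Phi F L (T ^ 2 + algebraMap F L r * T)) = T ^ 2 + algebraMap F L r * T
    simp only [map_add, map_mul, map_pow, AlgHom.commutes]
    rw [hTr]; ring
  have hfix : ∀ w : L, Phi F L w = w → ∃ a : F, algebraMap F L a = w := by
    intro w hw
    have h5 := (IsGalois.mem_range_algebraMap_iff_fixed (F := F) (E := L) w).mpr (by
      intro g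
      obtain ⟨i, hi⟩ := FiniteField.exists_forall_apply_eq_pow F p L g
      rw [hi]
      have h6 : ∀ j : ℕ, w ^ (Nat.card F) ^ j = w := by
        intro j
        induction j with
        | zero => simp
        | succ j ih =>
          rw [pow_succ, pow_mul, ih, Nat.card_eq_fintype_card]
          exact hw
      exact h6 i)
    exact h5
  obtain ⟨u, hu⟩ := hfix (-(Q + Phi F L Q)) (by rw [map_neg, map_add, hQ]; ring)
  obtain ⟨v, hv⟩ := hfix (Q * Phi F L Q) (by rw [map_mul, hQ]; ring)
  refine ⟨r, u, v, ?_⟩
  have hroot : aeval T (quartic r u v) = 0 := by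
    simp only [quartic, map_add, map_mul, map_pow, aeval_X, aeval_C]
    show Q ^ 2 + algebraMap F L u * Q + algebraMap F L v = 0
    rw [hu, hv]; ring
  have hint : IsIntegral F T := Algebra.IsIntegral.isIntegral T
  have hirr := minpoly.irreducible hint
  have hdvd := minpoly.dvd F T hroot
  have hd4 : (minpoly F T).natDegree ∣ 4 := by
    apply hirr.natDegree_dvd_of_dvd_X_pow_card_pow_sub_X
    apply minpoly.dvd
    rw [map_sub, map_pow, aeval_X, sub_eq_zero, ← hcard, Nat.card_eq_fintype_card]
    exact FiniteField.pow_card T
  have hd2 : ¬ (minpoly F T).natDegree ∣ 2 := by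
    intro h
    have h5 := hirr.natDegree_dvd_iff_dvd_X_pow_card_pow_sub_X.mp h
    apply hT
    have h6 := (minpoly.dvd_iff).mp h5
    rw [map_sub, map_pow, aeval_X, sub_eq_zero, Nat.card_eq_fintype_card] at h6
    rw [phi_apply, phi_apply, ← pow_mul, ← pow_two]
    exact h6
  have hdeg : (minpoly F T).natDegree = 4 := by
    have h7 : (minpoly F T).natDegree ≤ 4 := Nat.le_of_dvd (by norm_num) hd4
    interval_cases h : (minpoly F T).natDegree <;> omega
  have heq : minpoly F T = quartic r u v := by
    symm
    apply eq_of_monic_of_dvd_of_natDegree_le (minpoly.monic hint) (quartic_monic r u v) hdvd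
    rw [quartic_natDegree, hdeg]
  rw [← heq]
  exact hirr

end Pool.Agent.W_MP_49a69b_al
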