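import Pool.Agent.W_MP_49a69b_al.BFun
import Pool.Agent.W_MP_49a69b_al.FieldPart

/-!
# The element `g₀` and the scalar subgroup
-/

namespace Pool.Agent.W_MP_49a69b_al

open Polynomial IsDedekindDomain Matrix

variable {F : Type} [Field F] [Finite F] {π : F[X]} {v : HeightOneSpectrum F[X]}

theorem const_mem (v : HeightOneSpectrum F[X]) (c : F) : inc F (C c) ∈ OS v := by
  rw [mem_sIntegers]
  intro V _ _
  rw [← ValuationSubring.valuation_le_one_iff]
  exact FiniteField.valuation_algebraMap_le_one V.valuation c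

/-- Constants. -/
noncomputable def constHom (v : HeightOneSpectrum F[X]) : F →+* OS v :=
  ((inc F).comp C).codRestrict (OS v) (const_mem v)

/-- Scalar matrices. -/
noncomputable def scal (v : HeightOneSpectrum F[X]) : Fˣ →* Gam v :=
  Units.map (((Matrix.scalar (Fin 2)).comp (constHom v) :
    F →+* Matrix (Fin 2) (Fin 2) (OS v)) : F →* Matrix (Fin 2) (Fin 2) (OS v))

theorem mat_scal (c : Fˣ) : mat (scal v c) = inc F (C (c : F)) • (1 : Matrix (Fin 2) (Fin 2) _) := by
  have h1 : ((scal v c : Gam v) : Matrix (Fin 2) (Fin 2) (OS v)) =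
      Matrix.scalar (Fin 2) (constHom v (c : F)) := rfl
  rw [mat, h1]
  ext i j
  fin_cases i <;> fin_cases j <;> simp [constHom]

theorem scal_injective : Function.Injective (scal v) := by
  intro c d h
  have h1 := congrArg mat h
  rw [mat_scal, mat_scal] at h1
  have h2 := congrFun (congrFun h1 0) 0
  simp only [Matrix.smul_apply, Matrix.one_apply_eq, smul_eq_mul, mul_one] at h2
  exact Units.ext (C_injective (inc_injective h2))

/-- The scalar subgroup. -/
noncomputable def scalars (v : HeightOneSpectrum F[X]) : Subgroup (Gam v) := (scal v).range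

theorem rep_scal (c : Fˣ) : Rep π (scal v c) 0 (C (c : F) • 1) where
  eq := by
    rw [pow_zero, one_smul, mat_scal]
    ext i j
    fin_cases i <;> fin_cases j <;> simp
  deg := by
    intro i j
    rw [Matrix.smul_apply, smul_eq_mul]
    refine (natDegree_C_mul_le _ _).trans ?_
    fin_cases i <;> fin_cases j <;> simp

variable (hπ : Irreducible π) (hv : v.asIdeal = Ideal.span {π})

include hπ in
theorem mk_C_ne {c : F} (hc : c ≠ 0) : AdjoinRoot.mk π (C c) ≠ 0 := by
  intro h3
  rw [AdjoinRoot.mk_eq_zero] at h3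
  have h4 : IsUnit (C c : F[X]) := by
    rw [isUnit_C]; exact isUnit_iff_ne_zero.mpr hc
  exact hπ.not_isUnit (isUnit_of_dvd_unit h3 h4)

include hπ hv in
theorem inCone_scal {θ : AdjoinRoot π} (c : Fˣ) (g : Gam v) :
    InCone π θ (scal v c * g) ↔ InCone π θ g := by
  have : Fact (Irreducible π) := ⟨hπ⟩
  obtain ⟨n, M, hM, hp⟩ := exists_prim_rep hπ hv g
  have h1 := (rep_scal (π := π) (v := v) c).mul hM
  rw [zero_add, Matrix.smul_mul, Matrix.one_mul] at h1
  have hc := mk_C_ne hπ c.ne_zero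
  have h2 : Prim π (C (c : F) • M) := by
    obtain ⟨i, j, hij⟩ := hp
    refine ⟨i, j, fun h => hij ?_⟩
    rw [← AdjoinRoot.mk_eq_zero] at h ⊢
    rw [Matrix.smul_apply, smul_eq_mul, map_mul] at h
    exact (mul_eq_zero.mp h).resolve_left hc
  rw [inCone_iff hπ h1 h2, inCone_iff hπ hM hp]
  constructor
  · intro h j
    have h3 := h j
    simp only [Matrix.smul_apply, smul_eq_mul, map_mul] at h3
    apply mul_left_cancel₀ hc
    rw [h3]; ring
  · intro h j
    simp only [Matrix.smul_apply, smul_eq_mul, map_mul]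
    rw [h j]; ring

include hπ hv in
theorem bfun_inv (k : Type) [CommRing k] (θ : AdjoinRoot π) :
    ∀ h ∈ scalars v, ∀ g, bfun k π θ (h * g) = bfun k π θ g := by
  rintro _ ⟨c, rfl⟩ g
  unfold bfun
  rw [inCone_scal hπ hv]

/-- Construction of elements of `GL₂(O_{K,S})`. -/
theorem exists_of_matrix (hπ : Irreducible π) (hv : v.asIdeal = Ideal.span {π}) (n : ℕ)
    (M : Matrix (Fin 2) (Fin 2) F[X])
    (hdeg : ∀ i j, (M i j).natDegree ≤ n * π.natDegree) {c : F} (hc : c ≠ 0)
    (hdet : M.det = C c * π ^ (2 * n)) : ∃ g : Gam v, Rep π g n M := by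
  have hpi := inc_pi_ne hπ
  have hmem : ∀ i j, inc F (M i j) / (inc F π) ^ n ∈ OS v := by
    intro i j
    rw [mem_sIntegers_iff hπ hv]
    exact ⟨n, M i j, hdeg i j, div_mul_cancel₀ _ (pow_ne_zero n hpi)⟩
  let A : Matrix (Fin 2) (Fin 2) (OS v) := Matrix.of fun i j => ⟨_, hmem i j⟩
  have hA : (OS v).subtype.mapMatrix A = ((inc F π) ^ n)⁻¹ • (inc F).mapMatrix M := by
    ext i j
    show inc F (M i j) / (inc F π) ^ n = ((inc F π) ^ n)⁻¹ * inc F (M i j)
    rw [div_eq_mul_inv, mul_comm]
  have hdA : (OS v).subtype A.det = inc F (C c) := by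
    rw [RingHom.map_det, hA, Matrix.det_smul, Fintype.card_fin, ← RingHom.map_det, hdet, map_mul,
      map_pow, inv_pow, ← pow_mul, mul_comm n 2, mul_comm, mul_assoc,
      mul_inv_cancel₀ (pow_ne_zero _ hpi), mul_one]
  have hunit : IsUnit A.det := by
    apply IsUnit.of_mul_eq_one ⟨inc F (C c⁻¹), const_mem v _⟩
    apply Subtype.ext
    show (OS v).subtype A.det * inc F (C c⁻¹) = 1
    rw [hdA, ← map_mul, ← C_mul, mul_inv_cancel₀ hc, C_1, map_one]
  refine ⟨Matrix.GeneralLinearGroup.mk'' A hunit, ?_, hdeg⟩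
  have h1 : mat (Matrix.GeneralLinearGroup.mk'' A hunit : Gam v) = (OS v).subtype.mapMatrix A := rfl
  rw [h1, hA, smul_smul, mul_inv_cancel₀ (pow_ne_zero _ hpi), one_smul]

section special

variable {r u w : F}

/-- The polynomial `Q = T² + rT`. -/
noncomputable def Qp (r : F) : F[X] := X ^ 2 + C r * X

/-- The matrix `M₀ = π g₀`. -/
noncomputable def M0 (r u w : F) : Matrix (Fin 2) (Fin 2) F[X] :=
  !![C w + Qp r ^ 2 - Qp r * X, X + C u;
    C w * X - C u * Qp r ^ 2 - Qp r * X ^ 2,
    Qp r ^ 2 + Qp r * X + 2 * C u * Qp r + C u * X + X ^ 2 + C w]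

omit [Finite F] in
theorem M0_det : (M0 r u w).det = quartic r u w ^ 2 := by
  rw [M0, Matrix.det_fin_two_of, quartic, Qp]
  ring

omit [Finite F] in
theorem M0_deg (i j : Fin 2) : (M0 r u w i j).natDegree ≤ 1 * (quartic r u w).natDegree := by
  rw [quartic_natDegree]
  fin_cases i <;> fin_cases j <;> simp only [M0, Qp] <;> simp <;> compute_degree

omit [Finite F] in
theorem M0_col (j : Fin 2) : quartic r u w ∣ M0 r u w 1 j - (Qp r + X) * M0 r u w 0 j := by
  fin_cases j
  · refine ⟨- Qp r, ?_⟩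
    simp only [M0, Qp, quartic]
    simp
    ring
  · refine ⟨1, ?_⟩
    simp only [M0, Qp, quartic]
    simp
    ring

omit [Finite F] in
theorem M0_adj (j : Fin 2) :
    quartic r u w ∣ (M0 r u w).adjugate 1 j - Qp r * (M0 r u w).adjugate 0 j := by
  rw [Matrix.adjugate_fin_two]
  fin_cases j
  · refine ⟨- (Qp r + X), ?_⟩
    simp only [M0, Qp, quartic]
    simp
    ring
  · refine ⟨1, ?_⟩
    simp only [M0, Qp, quartic]
    simp
    ring

omit [Finite F] in
theorem M0_ne : ¬ quartic r u w ∣ X + C u := by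
  intro h
  have h1 := natDegree_le_of_dvd h (X_add_C_ne_zero u)
  rw [quartic_natDegree, natDegree_X_add_C] at h1
  omega

end special

end Pool.Agent.W_MP_49a69b_al
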