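import Pool.Agent.W_MP_49a69b_al.SInt

/-!
# The group `GL₂(O_{K,S})` for `K = F(T)` and `S` one finite place `π`

Every `g` has a primitive representation `g = M / πⁿ` with `M` a matrix of polynomials whose
entries have degree at most `n deg π`.
-/

namespace Pool.Agent.W_MP_49a69b_al

open Polynomial IsDedekindDomain Matrix

variable {F : Type} [Field F] {π : F[X]} {v : HeightOneSpectrum F[X]}

/-- The ring of functions on the projective line regular outside `v`. -/
noncomputable abbrev OS (v : HeightOneSpectrum F[X]) : Subring (RatFunc F) :=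
  sIntegers (RatFunc F) {place v}

/-- The group `GL₂` of that ring. -/
abbrev Gam (v : HeightOneSpectrum F[X]) : Type := GL (Fin 2) (OS v)

/-- The matrix over `F(T)`. -/
noncomputable def mat (g : Gam v) : Matrix (Fin 2) (Fin 2) (RatFunc F) :=
  (OS v).subtype.mapMatrix (g : Matrix (Fin 2) (Fin 2) (OS v))

/-- The inclusion of polynomials in rational functions. -/
noncomputable abbrev inc (F : Type) [Field F] : F[X] →+* RatFunc F := algebraMap F[X] (RatFunc F)

theorem inc_injective : Function.Injective (inc F) := RatFunc.algebraMap_injective F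

theorem mat_mul (g h : Gam v) : mat (g * h) = mat g * mat h := by
  rw [mat, Units.val_mul, map_mul]; rfl

theorem mat_one : mat (1 : Gam v) = 1 := by
  rw [mat, Units.val_one, map_one]

theorem mat_injective : Function.Injective (mat : Gam v → _) := by
  intro g h hgh
  apply Units.ext
  exact Matrix.map_injective (Subtype.val_injective) hgh

theorem mat_apply (g : Gam v) (i j : Fin 2) :
    mat g i j = ((g : Matrix (Fin 2) (Fin 2) (OS v)) i j : RatFunc F) := rfl

/-- `g = M / πⁿ` with the degree condition. -/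
structure Rep (π : F[X]) (g : Gam v) (n : ℕ) (M : Matrix (Fin 2) (Fin 2) F[X]) : Prop where
  eq : (inc F π) ^ n • mat g = (inc F).mapMatrix M
  deg : ∀ i j, (M i j).natDegree ≤ n * π.natDegree

/-- `M` is not divisible by `π`. -/
def Prim (π : F[X]) (M : Matrix (Fin 2) (Fin 2) F[X]) : Prop := ∃ i j, ¬ π ∣ M i j

theorem Rep.entry {g : Gam v} {n : ℕ} {M : Matrix (Fin 2) (Fin 2) F[X]} (h : Rep π g n M)
    (i j : Fin 2) : (inc F π) ^ n * mat g i j = inc F (M i j) := by
  have := congrFun (congrFun h.eq i) j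
  simpa using this

theorem natDegree_sum_le {d : ℕ} {a b : F[X]} (ha : a.natDegree ≤ d) (hb : b.natDegree ≤ d) :
    (a + b).natDegree ≤ d := (natDegree_add_le a b).trans (max_le ha hb)

theorem natDegree_prod_le {d e : ℕ} {a b : F[X]} (ha : a.natDegree ≤ d) (hb : b.natDegree ≤ e) :
    (a * b).natDegree ≤ d + e := natDegree_mul_le.trans (add_le_add ha hb)

theorem Rep.mul {g h : Gam v} {n m : ℕ} {M N : Matrix (Fin 2) (Fin 2) F[X]} (hg : Rep π g n M)
    (hh : Rep π h m N) : Rep π (g * h) (n + m) (M * N) where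
  eq := by
    rw [mat_mul, map_mul, ← hg.eq, ← hh.eq, smul_mul_smul_comm, pow_add]
  deg := by
    intro i j
    rw [Matrix.mul_apply, Fin.sum_univ_two, add_mul]
    exact natDegree_sum_le (natDegree_prod_le (hg.deg _ _) (hh.deg _ _))
      (natDegree_prod_le (hg.deg _ _) (hh.deg _ _))

section

variable [Finite F] (hπ : Irreducible π) (hv : v.asIdeal = Ideal.span {π})

include hπ in
theorem inc_pi_ne : inc F π ≠ 0 := by
  simpa using hπ.ne_zero

include hπ hv in
theorem exists_rep (g : Gam v) : ∃ n M, Rep π g n M := by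
  have h1 : ∀ i j : Fin 2, ∃ (n : ℕ) (f : F[X]), f.natDegree ≤ n * π.natDegree ∧
      (inc F π) ^ n * mat g i j = inc F f := by
    intro i j
    obtain ⟨n, f, h1, h2⟩ := (mem_sIntegers_iff hπ hv (mat g i j)).mp
      ((g : Matrix (Fin 2) (Fin 2) (OS v)) i j).2
    exact ⟨n, f, h1, by rw [mul_comm]; exact h2⟩
  choose n f hf hnf using h1
  let N := ∑ i, ∑ j, n i j
  have hN : ∀ i j, n i j ≤ N := by
    intro i j
    calc n i j ≤ ∑ j, n i j := Finset.single_le_sum (f := fun j => n i j) (fun _ _ => Nat.zero_le _)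
          (Finset.mem_univ j)
      _ ≤ N := Finset.single_le_sum (f := fun i => ∑ j, n i j) (fun _ _ => Nat.zero_le _)
          (Finset.mem_univ i)
  refine ⟨N, Matrix.of fun i j => f i j * π ^ (N - n i j), ?_, ?_⟩
  · ext i j
    simp only [Matrix.smul_apply, smul_eq_mul, RingHom.mapMatrix_apply, Matrix.map_apply,
      Matrix.of_apply, map_mul, map_pow]
    rw [← hnf]
    have : N = n i j + (N - n i j) := by have := hN i j; omega
    conv_lhs => rw [this, pow_add]
    ring
  · intro i j
    rw [Matrix.of_apply]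
    have h2 := natDegree_prod_le (hf i j) (le_of_eq (natDegree_pow π (N - n i j)))
    rw [← add_mul] at h2
    have : n i j + (N - n i j) = N := by have := hN i j; omega
    rwa [this] at h2

include hπ in
theorem natDegree_pos : 0 < π.natDegree := hπ.natDegree_pos

include hπ hv in
theorem exists_prim_rep (g : Gam v) : ∃ n M, Rep π g n M ∧ Prim π M := by
  classical
  have hex : ∃ n, ∃ M, Rep π g n M := exists_rep hπ hv g
  obtain ⟨M, hM⟩ := Nat.find_spec hex
  refine ⟨Nat.find hex, M, hM, ?_⟩
  by_contra hprim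
  simp only [Prim, not_exists, not_not] at hprim
  choose M' hM' using hprim
  by_cases h0 : Nat.find hex = 0
  · have hzero : M = 0 := by
      ext1 i j
      have h1 := hM.deg i j
      rw [h0, zero_mul] at h1
      by_contra hne
      have h2 := natDegree_le_of_dvd ⟨M' i j, hM' i j⟩ hne
      have := natDegree_pos hπ
      omega
    have h3 := hM.eq
    rw [hzero, map_zero, h0, pow_zero, one_smul] at h3
    have h4 : mat (g * g⁻¹) = 0 := by rw [mat_mul, h3, zero_mul]
    rw [mul_inv_cancel, mat_one] at h4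
    exact one_ne_zero h4
  · obtain ⟨n, hn⟩ := Nat.exists_eq_succ_of_ne_zero h0
    have : ∃ M, Rep π g n M := by
      refine ⟨Matrix.of M', ?_, ?_⟩
      · ext i j
        have h1 := hM.entry i j
        rw [hM' i j, hn, Nat.succ_eq_add_one, pow_succ, map_mul] at h1
        have h2 : inc F π * ((inc F π) ^ n * mat g i j) = inc F π * inc F (M' i j) := by
          rw [← h1]; ring
        have h3 := mul_left_cancel₀ (inc_pi_ne hπ) h2
        simpa using h3
      · intro i j
        rw [Matrix.of_apply]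
        by_cases hz : M' i j = 0
        · rw [hz]; simp
        · have h1 := hM.deg i j
          rw [hM' i j, natDegree_mul hπ.ne_zero hz, hn, Nat.succ_eq_add_one, add_mul, one_mul] at h1
          omega
    exact Nat.find_min hex (by omega) this

include hπ in
theorem prim_le {g : Gam v} {n m : ℕ} {M N : Matrix (Fin 2) (Fin 2) F[X]} (hM : Rep π g n M)
    (hN : Rep π g m N) (hp : Prim π M) : n ≤ m := by
  by_contra hlt
  obtain ⟨i, j, hij⟩ := hp
  apply hij
  have h1 := hM.entry i j
  have h2 := hN.entry i j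
  obtain ⟨r, hr⟩ : ∃ r, n = m + (r + 1) := ⟨n - m - 1, by omega⟩
  have h3 : inc F (M i j) = inc F (π * (π ^ r * N i j)) := by
    rw [← h1, hr, map_mul, map_mul, map_pow, ← h2]; ring
  rw [inc_injective h3]
  exact dvd_mul_right _ _

include hπ in
theorem prim_unique {g : Gam v} {n m : ℕ} {M N : Matrix (Fin 2) (Fin 2) F[X]} (hM : Rep π g n M)
    (hN : Rep π g m N) (hp : Prim π M) (hq : Prim π N) : n = m ∧ M = N := by
  have h : n = m := le_antisymm (prim_le hπ hM hN hp) (prim_le hπ hN hM hq)
  subst h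
  refine ⟨rfl, ?_⟩
  ext1 i j
  apply inc_injective
  rw [← hM.entry, ← hN.entry]

include hπ hv in
/-- Units of `O_{K,S}` are constants. -/
theorem unit_const (u : (OS v)ˣ) : ∃ c : F, c ≠ 0 ∧ ((u : OS v) : RatFunc F) = inc F (C c) := by
  obtain ⟨n, f, hf, hnf⟩ := (mem_sIntegers_iff hπ hv _).mp (u : OS v).2
  obtain ⟨m, f', hf', hnf'⟩ := (mem_sIntegers_iff hπ hv _).mp ((u⁻¹ : (OS v)ˣ) : OS v).2
  have hmul : ((u : OS v) : RatFunc F) * ((u⁻¹ : (OS v)ˣ) : OS v) = 1 := by
    have : (u : OS v) * ((u⁻¹ : (OS v)ˣ) : OS v) = 1 := Units.mul_inv u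
    exact congrArg Subtype.val this
  have hff : f * f' = π ^ (n + m) := by
    apply inc_injective
    rw [map_mul, ← hnf, ← hnf', map_pow, pow_add]
    calc _ = (((u : OS v) : RatFunc F) * ((u⁻¹ : (OS v)ˣ) : OS v)) *
        (inc F π ^ n * inc F π ^ m) := by ring
      _ = _ := by rw [hmul, one_mul]
  have hf0 : f ≠ 0 := by
    rintro rfl
    rw [zero_mul] at hff
    exact pow_ne_zero _ hπ.ne_zero hff.symm
  have hf'0 : f' ≠ 0 := by
    rintro rfl
    rw [mul_zero] at hff
    exact pow_ne_zero _ hπ.ne_zero hff.symm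
  have hdeg := congrArg natDegree hff
  rw [natDegree_mul hf0 hf'0, natDegree_pow, add_mul] at hdeg
  have hdf : f.natDegree = n * π.natDegree := by omega
  obtain ⟨i, -, hi⟩ := (dvd_prime_pow hπ.prime (n + m)).mp ⟨f', hff.symm⟩
  obtain ⟨w, hw⟩ := hi.symm
  -- `f = π ^ i * w`
  have hdw := natDegree_eq_zero_of_isUnit w.isUnit
  have hdi : f.natDegree = i * π.natDegree := by
    rw [← hw, natDegree_mul (pow_ne_zero _ hπ.ne_zero) w.ne_zero, hdw, natDegree_pow, add_zero]
  have hin : i = n := by
    have := natDegree_pos hπ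
    rw [hdf] at hdi
    exact (Nat.eq_of_mul_eq_mul_right this hdi).symm
  obtain ⟨c, hc, hcw⟩ := Polynomial.isUnit_iff.mp w.isUnit
  refine ⟨c, hc.ne_zero, ?_⟩
  have h1 : ((u : OS v) : RatFunc F) * (inc F π) ^ n = inc F (C c) * (inc F π) ^ n := by
    rw [hnf, ← hw, ← hcw, hin, map_mul, map_pow]; ring
  exact mul_right_cancel₀ (pow_ne_zero _ (inc_pi_ne hπ)) h1

include hπ hv in
theorem det_const (g : Gam v) : ∃ c : F, c ≠ 0 ∧ (mat g).det = inc F (C c) := by
  obtain ⟨c, hc, h⟩ := unit_const hπ hv (Matrix.GeneralLinearGroup.det g)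
  refine ⟨c, hc, ?_⟩
  rw [← h, mat, ← RingHom.map_det]
  rfl

theorem det_rep {g : Gam v} {n : ℕ} {M : Matrix (Fin 2) (Fin 2) F[X]} (h : Rep π g n M)
    {c : F} (hc : (mat g).det = inc F (C c)) : M.det = C c * π ^ (2 * n) := by
  apply inc_injective
  rw [RingHom.map_det, ← h.eq, Matrix.det_smul, hc, Fintype.card_fin, map_mul, map_pow, ← pow_mul,
    mul_comm n 2, mul_comm]

/-- A representation of the inverse. -/
theorem rep_inv {g : Gam v} {n : ℕ} {M : Matrix (Fin 2) (Fin 2) F[X]} (h : Rep π g n M)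
    {c : F} (hc0 : c ≠ 0) (hc : (mat g).det = inc F (C c)) :
    Rep π g⁻¹ n (C c⁻¹ • M.adjugate) where
  eq := by
    have h1 : mat g⁻¹ = (inc F (C c⁻¹)) • (mat g).adjugate := by
      have h2 : mat g * mat g⁻¹ = 1 := by rw [← mat_mul, mul_inv_cancel, mat_one]
      have h3 : (mat g).adjugate * (mat g * mat g⁻¹) = (mat g).det • mat g⁻¹ := by
        rw [← Matrix.mul_assoc, Matrix.adjugate_mul, Matrix.smul_mul, Matrix.one_mul]
      rw [h2, Matrix.mul_one, hc] at h3
      rw [h3, smul_smul, ← map_mul, ← C_mul, inv_mul_cancel₀ hc0, C_1, map_one, one_smul]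
    have h4 : (inc F).mapMatrix M.adjugate = (inc F π) ^ n • (mat g).adjugate := by
      rw [RingHom.map_adjugate, ← h.eq, Matrix.adjugate_smul, Fintype.card_fin]
      simp
    rw [h1, smul_smul, mul_comm, ← smul_smul, ← h4]
    ext i j
    simp
  deg := by
    intro i j
    have h1 : (M.adjugate i j).natDegree ≤ n * π.natDegree := by
      rw [Matrix.adjugate_fin_two]
      fin_cases i <;> fin_cases j <;> simp [h.deg]
    rw [Matrix.smul_apply, smul_eq_mul]
    exact (natDegree_C_mul_le _ _).trans h1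

/-- Finiteness of the set of elements of bounded level. -/
theorem finite_natDegree_le (D : ℕ) : {f : F[X] | f.natDegree ≤ D}.Finite := by
  let φ : {f : F[X] | f.natDegree ≤ D} → (Fin (D + 1) → F) := fun f i => f.1.coeff i
  have hφ : Function.Injective φ := by
    intro f g hfg
    apply Subtype.ext
    ext n
    by_cases hn : n < D + 1
    · exact congrFun hfg ⟨n, hn⟩
    · rw [coeff_eq_zero_of_natDegree_lt (lt_of_le_of_lt f.2 (by omega)),
        coeff_eq_zero_of_natDegree_lt (lt_of_le_of_lt g.2 (by omega))]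
  haveI := Finite.of_injective φ hφ
  exact Set.toFinite _

theorem Rep.mono {g : Gam v} {n m : ℕ} {M : Matrix (Fin 2) (Fin 2) F[X]} (h : Rep π g n M)
    (hnm : n ≤ m) : Rep π g m (π ^ (m - n) • M) where
  eq := by
    obtain ⟨r, rfl⟩ := Nat.exists_eq_add_of_le hnm
    have h1 : (inc F).mapMatrix (π ^ (n + r - n) • M) =
        (inc F π) ^ r • (inc F).mapMatrix M := by
      ext i j
      simp
    rw [h1, ← h.eq, smul_smul, pow_add, mul_comm]
  deg := by
    intro i j
    rw [Matrix.smul_apply, smul_eq_mul]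
    have h1 := natDegree_prod_le (le_of_eq (natDegree_pow π (m - n))) (h.deg i j)
    rw [← add_mul] at h1
    have : m - n + n = m := by omega
    rwa [this] at h1

include hπ in
theorem finite_rep (L : ℕ) : {g : Gam v | ∃ n ≤ L, ∃ M, Rep π g n M}.Finite := by
  have hT : {M : Matrix (Fin 2) (Fin 2) F[X] |
      ∀ i j, (M i j).natDegree ≤ L * π.natDegree}.Finite := by
    have h1 : {M : Fin 2 → Fin 2 → F[X] | ∀ i ∈ (Set.univ : Set (Fin 2)),
        M i ∈ {r : Fin 2 → F[X] | ∀ j ∈ (Set.univ : Set (Fin 2)),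
          r j ∈ {f : F[X] | f.natDegree ≤ L * π.natDegree}}}.Finite :=
      Set.Finite.pi' (fun i => Set.Finite.pi' (fun j => finite_natDegree_le _)) |>.subset (by
        intro M hM i j
        exact hM i (Set.mem_univ i) j (Set.mem_univ j))
    refine h1.subset ?_
    intro M hM i _ j _
    exact hM i j
  refine Set.Finite.of_finite_image ?_ (mat_injective.injOn)
  refine (hT.image (fun M => ((inc F π) ^ L)⁻¹ • (inc F).mapMatrix M)).subset ?_
  rintro _ ⟨g, ⟨n, hn, M, hM⟩, rfl⟩
  have h2 := hM.mono hn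
  refine ⟨_, h2.deg, ?_⟩
  show ((inc F π) ^ L)⁻¹ • (inc F).mapMatrix _ = mat g
  rw [← h2.eq, smul_smul, inv_mul_cancel₀ (pow_ne_zero _ (inc_pi_ne hπ)), one_smul]

end

end Pool.Agent.W_MP_49a69b_al
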