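import Pool.Agent.W_MP_49a69b_al.NonZero
import Pool.Agent.W_MP_49a69b_al.Cyclic

/-!
# Torsion in the cohomology of `GL₂(O_{K,S})`
-/

namespace Pool.Agent.W_MP_49a69b_al

open Polynomial IsDedekindDomain Matrix

section general

variable {k : Type} [CommRing k] {G G' G'' : Type} [Group G] [Group G'] [Group G'']

theorem res_comp (f : G' →* G) (g : G'' →* G') (x : Cohomology k G) :
    res (f.comp g) x = res g (res f x) := by
  obtain ⟨F, rfl⟩ := cls_surj x
  rw [res_cls, res_cls, res_cls]
  congr 1
  apply cocycle_ext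
  apply cochain_ext
  intro l
  show F.1.1 (l.map (f.comp g)) = F.1.1 ((l.map g).map f)
  rw [List.map_map]
  rfl

theorem res_degree (f : G' →* G) {n : ℕ} {x : Cohomology k G} (hx : x ∈ degree k G n) :
    res f x ∈ degree k G' n := by
  obtain ⟨F, hF, rfl⟩ := hx
  refine ⟨resCocycle f F, fun l hl => ?_, rfl⟩
  show F.1.1 (l.map f) = 0
  exact hF _ (by rwa [List.length_map])

theorem mul_degree {n m : ℕ} {x y : Cohomology k G} (hx : x ∈ degree k G n)
    (hy : y ∈ degree k G m) : x * y ∈ degree k G (n + m) := by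
  obtain ⟨F, hF, rfl⟩ := hx
  obtain ⟨E, hE, rfl⟩ := hy
  refine ⟨F * E, fun l hl => ?_, map_mul _ _ _⟩
  show cup F.1.1 E.1.1 l = 0
  rw [cup]
  refine Finset.sum_eq_zero (fun i hi => ?_)
  rw [Finset.mem_range] at hi
  by_cases h : i = n
  · rw [hE _ (by rw [List.length_drop]; omega), mul_zero]
  · rw [hF _ (by rw [List.length_take]; omega), zero_mul]

/-- If restriction to a subgroup given by an injective homomorphism vanishes, then so does the
restriction to its range. -/
theorem res_range {f : G' →* G} (hf : Function.Injective f) {x : Cohomology k G}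
    (h : res f x = 0) : res f.range.subtype x = 0 := by
  have h1 : f.range.subtype = f.comp (MonoidHom.ofInjective hf).symm.toMonoidHom := by
    ext y
    obtain ⟨z, rfl⟩ := (MonoidHom.ofInjective hf).surjective y
    simp
    rfl
  rw [h1, res_comp, h, map_zero]

end general

variable {F : Type} [Field F] [Finite F] {v : HeightOneSpectrum F[X]} {r u w : F}

/-- There is a nonzero class in `H¹(GL₂(O_{K,S}); k)` killed by all classes vanishing on the
scalars. -/
theorem exists_class (hπ : Irreducible (quartic r u w))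
    (hv : v.asIdeal = Ideal.span {quartic r u w}) (k : Type) [CommRing k] [Nontrivial k] :
    ∃ x : Cohomology k (Gam v), x ≠ 0 ∧ x ∈ degree k (Gam v) 1 ∧
      ∀ y : Cohomology k (Gam v), res (scal v) y = 0 → y * x = 0 := by
  have hb := bfun_inv hπ hv k (theta r u w)
  have hfin := bfun_finite (k := k) hπ hv (theta r u w)
  obtain ⟨g₀, h₀⟩ := exists_of_matrix hπ hv 1 (M0 r u w) M0_deg one_ne_zero
    (by rw [M0_det, C_1, one_mul])
  refine ⟨cls (xCocycle hb hfin), ?_, ?_, ?_⟩
  · apply cls_x_ne_zero hb hfin (g := g₀)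
    rw [xFun_pair]
    have h1 : ∀ c : RCosets (scalars v), c ≠ Quotient.mk _ (1 : Gam v) →
        bfun k (quartic r u w) (theta r u w) (Quotient.out c * g₀) -
          bfun k (quartic r u w) (theta r u w) (Quotient.out c * 1) = 0 := by
      intro c hc
      rw [mul_one, sub_eq_zero]
      by_contra hne
      apply hc
      have h2 : Quotient.out c ∈ scalars v := by
        apply scalar_of_ne hπ hv h₀
        exact bfun_ne_iff.mp (Ne.symm hne)
      rw [← Quotient.out_eq c]
      apply Quotient.sound
      show (QuotientGroup.rightRel (scalars v)).r _ _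
      rw [QuotientGroup.rightRel_apply, one_mul]
      exact inv_mem h2
    rw [finsum_eq_single _ _ h1, out_mul_eq (φ := fun μ => bfun k (quartic r u w) (theta r u w)
      (μ * g₀)) (fun h hh g => by rw [mul_assoc]; exact hb h hh _), one_mul, mul_one]
    have h3 : bfun k (quartic r u w) (theta r u w)
        (Quotient.out (Quotient.mk (QuotientGroup.rightRel (scalars v)) (1 : Gam v))) =
        bfun k (quartic r u w) (theta r u w) (1 : Gam v) := out_mul_eq hb 1
    rw [h3]
    have h4 : bfun k (quartic r u w) (theta r u w) g₀ = 1 := if_pos (inCone_g0 hπ hv h₀)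
    have h5 : bfun k (quartic r u w) (theta r u w) (1 : Gam v) = 0 :=
      if_neg (not_inCone_one hπ hv)
    rw [h4, h5, sub_zero]
    exact one_ne_zero
  · exact ⟨xCocycle hb hfin, fun l hl => x_degree l hl, rfl⟩
  · intro y hy
    exact mul_x_eq_zero hb hfin y (res_range scal_injective hy)

/-- Every graded ring homomorphism from `F_ℓ[c₁, c₂]` has a nonzero element of the form
`s c₁² + t c₂` in the kernel of multiplication by the class `x`. -/
theorem exists_relation (ℓ : ℕ) [Fact ℓ.Prime]
    (φ : MvPolynomial (Fin 2) (ZMod ℓ) →+* Cohomology (ZMod ℓ) (Gam v))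
    (hφ : ∀ i : Fin 2, φ (MvPolynomial.X i) ∈ degree (ZMod ℓ) (Gam v) (2 * (i + 1))) :
    ∃ f : MvPolynomial (Fin 2) (ZMod ℓ), f ≠ 0 ∧ res (scal v) (φ f) = 0 := by
  have : Fintype F := Fintype.ofFinite F
  classical
  have : Fintype Fˣ := inferInstance
  have h0 := res_degree (scal v) (hφ 0)
  have h1 := res_degree (scal v) (hφ 1)
  have h00 := mul_degree h0 h0
  obtain ⟨s, t, hst, h⟩ := degree_four_dependent (C := Fˣ) ℓ _ _ h00 h1
  refine ⟨(s : MvPolynomial (Fin 2) (ZMod ℓ)) * (MvPolynomial.X 0 * MvPolynomial.X 0) +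
    (t : MvPolynomial (Fin 2) (ZMod ℓ)) * MvPolynomial.X 1, ?_, ?_⟩
  · intro hz
    have hs : (s : ZMod ℓ) = 0 := by
      have h2 := congrArg (MvPolynomial.eval (fun i : Fin 2 => if i = 0 then (1 : ZMod ℓ) else 0)) hz
      simpa using h2
    have ht : (t : ZMod ℓ) = 0 := by
      have h2 := congrArg (MvPolynomial.eval (fun i : Fin 2 => if i = 0 then (0 : ZMod ℓ) else 1)) hz
      simpa using h2
    rcases hst with h3 | h3
    · exact h3 hs
    · exact h3 ht
  · rw [map_add, map_mul, map_mul, map_mul, map_natCast, map_natCast, map_add, map_mul, map_mul,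
      map_mul, map_natCast, map_natCast]
    exact h

end Pool.Agent.W_MP_49a69b_al
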