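import Pool.Agent.W_MP_49a69b_al.Coh

/-!
# A degree-one class killed by all classes that vanish on a subgroup
-/

namespace Pool.Agent.W_MP_49a69b_al

open Finset Function

variable {k : Type} [CommRing k] {G : Type} [Group G]

section rec

omit [Group G]

theorem diff_diff (F : List G → k) (l : List G) : diff (diff F) l = 0 := by
  induction l generalizing F with
  | nil => simp
  | cons a t ih =>
    have h2 : (fun u => diff F (a :: u)) = fun u => F u - diff (fun u => F (a :: u)) u := by
      funext u; exact diff_cons F a u
    rw [diff_cons, h2, diff_sub]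
    have e1 : diff (fun u => F u) t = diff F t := rfl
    have e2 : diff (fun u => diff (fun u => F (a :: u)) u) t =
      diff (diff (fun u => F (a :: u))) t := rfl
    rw [e1, e2, ih]
    ring

/-- The prism operator of a self-map `r`. -/
def prism (r : G → G) (F : List G → k) (l : List G) : k :=
  ∑ i ∈ range l.length, (-1) ^ i * F (l.take (i + 1) ++ (l.drop i).map r)

theorem prism_nil (r : G → G) (F : List G → k) : prism r F [] = 0 := by simp [prism]

theorem prism_cons (r : G → G) (F : List G → k) (a : G) (t : List G) :
    prism r F (a :: t) = F (a :: (r a :: t.map r)) - prism r (fun u => F (a :: u)) t := by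
  rw [prism, List.length_cons, sum_range_succ', add_comm, prism, sub_eq_add_neg,
    ← sum_neg_distrib]
  simp [pow_succ]

theorem prism_sub (r : G → G) (F E : List G → k) (l : List G) :
    prism r (fun u => F u - E u) l = prism r F l - prism r E l := by
  simp [prism, mul_sub, sum_sub_distrib]

theorem diff_comp_map {G' : Type} (r : G' → G) (F : List G → k) (l : List G') :
    diff (fun u => F (u.map r)) l = diff F (l.map r) := by
  simp only [diff, List.length_map, List.eraseIdx_map]

theorem cup_comp_map {G' : Type} (r : G' → G) (F E : List G → k) (l : List G') :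
    cup (fun u => F (u.map r)) (fun u => E (u.map r)) l = cup F E (l.map r) := by
  simp only [cup, List.length_map, List.map_take, List.map_drop]

theorem prism_homotopy (r : G → G) (F : List G → k) (l : List G) :
    prism r (diff F) l + diff (prism r F) l = F (l.map r) - F l := by
  induction l generalizing F with
  | nil => simp [prism_nil]
  | cons a t ih =>
    rw [prism_cons, diff_cons (prism r F)]
    have h1 : (fun u => diff F (a :: u)) = fun u => F u - diff (fun u => F (a :: u)) u := by
      funext u; exact diff_cons F a u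
    have h2 : (fun u => prism r F (a :: u)) = fun u =>
        (fun v => F (a :: r a :: v)) (u.map r) - prism r (fun u => F (a :: u)) u := by
      funext u; exact prism_cons r F a u
    have e4 : diff (fun u => (fun v => F (a :: r a :: v)) (u.map r)) t =
      diff (fun v => F (a :: r a :: v)) (t.map r) :=
      diff_comp_map r (fun v => F (a :: r a :: v)) t
    rw [h1, h2, prism_sub, diff_sub, e4, diff_cons F, diff_cons (fun u => F (a :: u))]
    have ih' := ih (fun u => F (a :: u))
    have e1 : prism r (fun u => F u) t = prism r F t := rfl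
    have e2 : prism r (fun u => diff (fun u => F (a :: u)) u) t =
      prism r (diff (fun u => F (a :: u))) t := rfl
    have e3 : diff (fun u => prism r (fun u => F (a :: u)) u) t =
      diff (prism r (fun u => F (a :: u))) t := rfl
    rw [e1, e2, e3]
    rw [List.map_cons]
    linear_combination ih'

end rec

section main

variable (H : Subgroup G) (b : G → k)

/-- Right cosets `H \ G`. -/
abbrev RCosets : Type := Quotient (QuotientGroup.rightRel H)

variable {H b}

theorem out_mul_eq {M : Type} {φ : G → M} (hφ : ∀ h ∈ H, ∀ g, φ (h * g) = φ g) (μ : G) :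
    φ (Quotient.out (Quotient.mk (QuotientGroup.rightRel H) μ)) = φ μ := by
  have h1 : (QuotientGroup.rightRel H).r (Quotient.out (Quotient.mk (QuotientGroup.rightRel H) μ)) μ :=
    Quotient.mk_out (s := QuotientGroup.rightRel H) μ
  have h2 := QuotientGroup.rightRel_apply.mp h1
  have h3 : μ = (μ * (Quotient.out (Quotient.mk (QuotientGroup.rightRel H) μ))⁻¹) *
    (Quotient.out (Quotient.mk (QuotientGroup.rightRel H) μ)) := by group
  conv_rhs => rw [h3]
  rw [hφ _ h2]

/-- Right multiplication on right cosets. -/
def rmul (H : Subgroup G) (g : G) : RCosets H ≃ RCosets H where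
  toFun := Quotient.map' (fun μ => μ * g) (by
    intro a c h
    rw [QuotientGroup.rightRel_apply] at h ⊢
    simpa [mul_assoc] using h)
  invFun := Quotient.map' (fun μ => μ * g⁻¹) (by
    intro a c h
    rw [QuotientGroup.rightRel_apply] at h ⊢
    simpa [mul_assoc] using h)
  left_inv := by
    intro c
    induction c using Quotient.inductionOn'
    simp [Quotient.map'_mk'']
  right_inv := by
    intro c
    induction c using Quotient.inductionOn'
    simp [Quotient.map'_mk'']

theorem rmul_out {M : Type} {φ : G → M} (hφ : ∀ h ∈ H, ∀ g, φ (h * g) = φ g) (g : G)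
    (c : RCosets H) : φ (Quotient.out (rmul H g c)) = φ (Quotient.out c * g) := by
  have h1 : rmul H g c = Quotient.mk (QuotientGroup.rightRel H) (Quotient.out c * g) := by
    conv_lhs => rw [← Quotient.out_eq c]
    rfl
  rw [h1, out_mul_eq hφ]

/-- Averages over `H \ G` are invariant. -/
theorem finsum_invariant (Φ : G → List G → k) (h1 : ∀ h ∈ H, ∀ g, Φ (h * g) = Φ g)
    (h2 : ∀ μ g l, Φ μ (l.map (g * ·)) = Φ (μ * g) l) (g : G) (l : List G) :
    ∑ᶠ c : RCosets H, Φ (Quotient.out c) (l.map (g * ·)) =
      ∑ᶠ c : RCosets H, Φ (Quotient.out c) l := by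
  rw [← finsum_comp_equiv (rmul H g) (f := fun c : RCosets H => Φ (Quotient.out c) l)]
  refine finsum_congr (fun c => ?_)
  rw [h2, rmul_out h1]

omit [Group G] in
theorem diff_finsum {ι : Type} (f : ι → List G → k) (hf : ∀ l, (support fun c => f c l).Finite)
    (l : List G) : diff (fun u => ∑ᶠ c, f c u) l = ∑ᶠ c, diff (f c) l := by
  simp only [diff]
  rw [finsum_sum_comm]
  · refine sum_congr rfl (fun i _ => ?_)
    rw [mul_finsum' _ _ (hf _)]
  · intro i _
    refine (hf (l.eraseIdx i)).subset ?_
    intro c hc h
    apply hc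
    show _ * f c _ = 0
    rw [show f c (l.eraseIdx i) = 0 from h, mul_zero]

omit [Group G] in
theorem cup_finsum {ι : Type} (y : List G → k) (f : ι → List G → k)
    (hf : ∀ l, (support fun c => f c l).Finite)
    (l : List G) : ∑ᶠ c, cup y (f c) l = cup y (fun u => ∑ᶠ c, f c u) l := by
  simp only [cup]
  rw [finsum_sum_comm]
  · refine sum_congr rfl (fun i _ => ?_)
    rw [mul_finsum' _ _ (hf _)]
  · intro i _
    refine (hf (l.drop i)).subset ?_
    intro c hc h
    apply hc
    show _ * f c _ = 0
    rw [show f c (l.drop i) = 0 from h, mul_zero]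

/-- The `0`-cochain (not invariant) given by `b`. -/
def beta (b : G → k) (l : List G) : k := if h : l.length = 1 then b (l[0]'(by omega)) else 0

theorem beta_single (b : G → k) (g : G) : beta b [g] = b g := by simp [beta]

/-- `P(g, g') = b(g') - b(g)`. -/
def pairP (b : G → k) : List G → k := diff (beta b)

theorem pairP_pair (b : G → k) (g g' : G) : pairP b [g, g'] = b g' - b g := by
  simp [pairP, diff_cons, beta]

theorem pairP_of_ne (b : G → k) (l : List G) (hl : l.length ≠ 2) : pairP b l = 0 := by
  rw [pairP, diff]
  refine sum_eq_zero (fun i hi => ?_)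
  rw [mem_range] at hi
  rw [beta, dif_neg, mul_zero]
  rw [length_eraseIdx_lt hi]
  omega

theorem pairP_map (b : G → k) (μ : G) (g g' : G) :
    pairP b ([g, g'].map (μ * ·)) = b (μ * g') - b (μ * g) := by
  rw [List.map_cons, List.map_cons, List.map_nil, pairP_pair]

theorem map_mul_mul (l : List G) (g μ : G) :
    (l.map (g * ·)).map (μ * ·) = l.map (μ * g * ·) := by
  rw [List.map_map]
  congr 1
  funext x
  simp [mul_assoc]

variable (hb : ∀ h ∈ H, ∀ g, b (h * g) = b g)
  (hfin : ∀ g g', {μ : G | b (μ * g) ≠ b (μ * g')}.Finite)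

include hfin in
theorem finite_support (l : List G) :
    (support fun c : RCosets H => pairP b (l.map (Quotient.out c * ·))).Finite := by
  by_cases hl : l.length = 2
  · obtain ⟨g, g', rfl⟩ := List.length_eq_two.mp hl
    refine Set.Finite.subset (Set.Finite.preimage (Quotient.out_injective.injOn) (hfin g g')) ?_
    intro c hc h
    apply hc
    show pairP b _ = 0
    have h' : b (Quotient.out c * g) = b (Quotient.out c * g') := h
    rw [pairP_map, h', sub_self]
  · convert Set.finite_empty
    rw [Set.eq_empty_iff_forall_notMem]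
    intro c hc
    apply hc
    show pairP b _ = 0
    rw [pairP_of_ne]
    rwa [List.length_map]

include hb in
theorem pairP_inv (h : G) (hh : h ∈ H) (l : List G) : pairP b (l.map (h * ·)) = pairP b l := by
  by_cases hl : l.length = 2
  · obtain ⟨g, g', rfl⟩ := List.length_eq_two.mp hl
    rw [pairP_map, pairP_pair, hb h hh, hb h hh]
  · rw [pairP_of_ne, pairP_of_ne _ _ hl]
    rwa [List.length_map]

/-- The degree one cocycle `x(g, g') = ∑_{c ∈ H \ G} (b(c g') - b(c g))`. -/
noncomputable def xFun (H : Subgroup G) (b : G → k) (l : List G) : k :=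
  ∑ᶠ c : RCosets H, pairP b (l.map (Quotient.out c * ·))

include hb in
theorem xFun_mem : IsCochain (xFun H b) := by
  refine ⟨?_, fun g l => ?_, 2, fun l hl => ?_⟩
  · rw [xFun]
    rw [← finsum_zero (α := RCosets H)]
    refine finsum_congr (fun c => ?_)
    rw [List.map_nil, pairP_of_ne _ _ (by simp)]
  · refine finsum_invariant (fun μ l => pairP b (l.map (μ * ·))) ?_ ?_ g l
    · intro h hh g
      funext l
      rw [← map_mul_mul l g h, pairP_inv hb h hh]
    · intro μ g l
      show pairP b _ = pairP b _
      rw [map_mul_mul]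
  · rw [xFun]
    rw [← finsum_zero (α := RCosets H)]
    refine finsum_congr (fun c => ?_)
    rw [pairP_of_ne _ _ (by rw [List.length_map]; omega)]

include hfin in
theorem diff_xFun (l : List G) : diff (xFun H b) l = 0 := by
  show diff (fun u => ∑ᶠ c : RCosets H, pairP b (u.map (Quotient.out c * ·))) l = 0
  rw [diff_finsum _ (finite_support hfin)]
  rw [← finsum_zero (α := RCosets H)]
  refine finsum_congr (fun c => ?_)
  rw [diff_comp_map, pairP, diff_diff]

/-- The class `x`. -/
noncomputable def xCocycle : Cocycle k G := ⟨⟨xFun H b, xFun_mem hb⟩, diff_xFun hfin⟩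

theorem xFun_pair (g g' : G) :
    xFun H b [g, g'] = ∑ᶠ c : RCosets H, (b (Quotient.out c * g') - b (Quotient.out c * g)) := by
  rw [xFun]
  exact finsum_congr (fun c => pairP_map _ _ _ _)

theorem cls_x_ne_zero {g : G} (hg : xFun H b [1, g] ≠ 0) :
    cls (xCocycle hb hfin) ≠ 0 := by
  intro h
  obtain ⟨D, hD⟩ := (cls_eq_zero_iff _).mp h
  apply hg
  have h1 := hD [1, g]
  have h2 : D.1 [g] = D.1 [1] := by
    have := D.2.2.1 g [1]
    simpa using this
  have h3 : diff D.1 [1, g] = 0 := by
    rw [diff_cons, diff_cons]
    simp [h2]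
  rw [h3] at h1
  exact h1

theorem x_degree (l : List G) (hl : l.length ≠ 2) : xFun H b l = 0 := by
  rw [xFun, ← finsum_zero (α := RCosets H)]
  refine finsum_congr (fun c => ?_)
  rw [pairP_of_ne _ _ (by rwa [List.length_map])]

/-- The retraction `G → H`, equivariant for left multiplication by `H`. -/
noncomputable def retr (H : Subgroup G) (g : G) : H :=
  ⟨g * (Quotient.out (Quotient.mk (QuotientGroup.rightRel H) g))⁻¹, by
    have h1 : (QuotientGroup.rightRel H).r
      (Quotient.out (Quotient.mk (QuotientGroup.rightRel H) g)) g :=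
      Quotient.mk_out (s := QuotientGroup.rightRel H) g
    exact QuotientGroup.rightRel_apply.mp h1⟩

theorem retr_mul (h : H) (g : G) : retr H (h * g) = h * retr H g := by
  apply Subtype.ext
  have h1 : Quotient.mk (QuotientGroup.rightRel H) ((h : G) * g) =
      Quotient.mk (QuotientGroup.rightRel H) g := by
    apply Quotient.sound
    show (QuotientGroup.rightRel H).r _ _
    rw [QuotientGroup.rightRel_apply]
    simp
  show (h : G) * g * (Quotient.out (Quotient.mk (QuotientGroup.rightRel H) ((h : G) * g)))⁻¹ = _
  rw [h1]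
  show _ = (h : G) * (g * _)
  rw [mul_assoc]

/-- A primitive of `y` on all of `G`, invariant under `H`. -/
noncomputable def primZ (y : List G → k) (w : List H → k) (l : List G) : k :=
  w (l.map (retr H)) - prism (fun g => (retr H g : G)) y l

theorem diff_primZ {y : List G → k} {w : List H → k} (hy : ∀ l, diff y l = 0)
    (hw : ∀ l : List H, y (l.map H.subtype) = diff w l) (l : List G) :
    diff (primZ y w) l = y l := by
  have h1 : diff (primZ y w) l = diff (fun u => w (u.map (retr H))) l -
      diff (prism (fun g => (retr H g : G)) y) l := diff_sub _ _ _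
  have h2 := prism_homotopy (fun g => (retr H g : G)) y l
  have h3 : diff y = fun _ => 0 := funext hy
  have h4 : prism (fun g => (retr H g : G)) (diff y) l = 0 := by
    rw [h3]; simp [prism]
  rw [h4, zero_add] at h2
  rw [h1, diff_comp_map, ← hw, h2, List.map_map]
  have h5 : (H.subtype ∘ retr H : G → G) = fun g => (retr H g : G) := rfl
  rw [h5]
  ring

theorem primZ_inv {y : List G → k} {w : List H → k}
    (hy : ∀ (g : G) (l : List G), y (l.map (g * ·)) = y l)
    (hw : ∀ (g : H) (l : List H), w (l.map (g * ·)) = w l) (h : H) (l : List G) :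
    primZ y w (l.map ((h : G) * ·)) = primZ y w l := by
  have e1 : (l.map ((h : G) * ·)).map (retr H) = (l.map (retr H)).map (h * ·) := by
    rw [List.map_map, List.map_map]
    congr 1
    funext x
    exact retr_mul h x
  rw [primZ, e1, hw, primZ]
  congr 1
  rw [prism, prism, List.length_map]
  refine sum_congr rfl (fun i _ => ?_)
  have e2 : (l.map ((h : G) * ·)).take (i + 1) ++
      ((l.map ((h : G) * ·)).drop i).map (fun g => (retr H g : G)) =
      (l.take (i + 1) ++ (l.drop i).map (fun g => (retr H g : G))).map ((h : G) * ·) := by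
    have e3 : ((fun g => (retr H g : G)) ∘ fun x => (h : G) * x) =
        ((fun x => (h : G) * x) ∘ fun g => (retr H g : G)) := by
      funext x
      show ((retr H ((h : G) * x) : H) : G) = (h : G) * (retr H x : G)
      rw [retr_mul]; rfl
    simp only [List.map_append, List.map_take, List.map_drop, List.map_map, e3]
  rw [e2, hy]

/-- Main lemma: classes that restrict to zero on `H` kill `x`. -/
theorem mul_x_eq_zero (y : Cohomology k G) (hy : res H.subtype y = 0) :
    y * cls (xCocycle hb hfin) = 0 := by
  obtain ⟨y, rfl⟩ := cls_surj y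
  rw [res_cls, cls_eq_zero_iff] at hy
  obtain ⟨w, hw⟩ := hy
  have hw' : ∀ l : List H, y.1.1 (l.map H.subtype) = diff w.1 l := hw
  rw [← map_mul, cls_eq_zero_iff]
  -- the primitive
  let Z : List G → k := primZ y.1.1 w.1
  have hZ : ∀ l, diff Z l = y.1.1 l := diff_primZ y.2 hw'
  have hZH : ∀ h ∈ H, ∀ l, Z (l.map (h * ·)) = Z l := fun h hh l =>
    primZ_inv y.1.2.2.1 w.2.2.1 ⟨h, hh⟩ l
  have hZnil : Z [] = 0 := by
    show w.1 ([].map (retr H)) - _ = 0
    rw [List.map_nil, w.2.1, prism_nil, sub_zero]
  obtain ⟨N, hN⟩ : ∃ N, ∀ l : List G, N < l.length → Z l = 0 := by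
    obtain ⟨N1, h1⟩ := y.1.2.2.2
    obtain ⟨N2, h2⟩ := w.2.2.2
    refine ⟨max N1 N2, fun l hl => ?_⟩
    show w.1 (l.map (retr H)) - prism _ y.1.1 l = 0
    rw [h2 _ (by rw [List.length_map]; omega), zero_sub, neg_eq_zero, prism]
    refine sum_eq_zero (fun i hi => ?_)
    rw [mem_range] at hi
    rw [h1, mul_zero]
    rw [List.length_append, List.length_take, List.length_map, List.length_drop]
    omega
  let Φ : G → List G → k := fun μ l =>
    cup (fun u => Z (u.map (μ * ·))) (fun u => pairP b (u.map (μ * ·))) l
  have hΦ : ∀ μ l, Φ μ l = cup Z (pairP b) (l.map (μ * ·)) := fun μ l => cup_comp_map _ _ _ _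
  have hΦ1 : ∀ h ∈ H, ∀ g, Φ (h * g) = Φ g := by
    intro h hh g
    funext l
    show cup _ _ l = cup _ _ l
    congr 1
    · funext u
      rw [← map_mul_mul u g h, hZH h hh]
    · funext u
      rw [← map_mul_mul u g h, pairP_inv hb h hh]
  have hΦ2 : ∀ μ g l, Φ μ (l.map (g * ·)) = Φ (μ * g) l := by
    intro μ g l
    rw [hΦ, hΦ, map_mul_mul]
  have hΦfin : ∀ l, (support fun c : RCosets H => Φ (Quotient.out c) l).Finite := by
    intro l
    have h1 : (⋃ i ∈ range l.length,
        support fun c : RCosets H => pairP b ((l.drop i).map (Quotient.out c * ·))).Finite :=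
      Set.Finite.biUnion (range l.length).finite_toSet (fun i _ => finite_support hfin _)
    refine h1.subset ?_
    intro c hc
    rw [Set.mem_iUnion₂]
    by_contra hcon
    push Not at hcon
    apply hc
    show cup _ _ l = 0
    rw [cup]
    refine sum_eq_zero (fun i hi => ?_)
    have h2 := hcon i hi
    rw [Function.notMem_support] at h2
    rw [h2, mul_zero]
  refine ⟨⟨fun l => ∑ᶠ c : RCosets H, Φ (Quotient.out c) l, ?_, ?_, ?_⟩, ?_⟩
  · rw [← finsum_zero (α := RCosets H)]
    refine finsum_congr (fun c => ?_)
    show cup _ _ [] = 0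
    rw [cup_nil]
  · intro g l
    exact finsum_invariant Φ hΦ1 hΦ2 g l
  · refine ⟨N + 2, fun l hl => ?_⟩
    show ∑ᶠ c : RCosets H, Φ (Quotient.out c) l = 0
    rw [← finsum_zero (α := RCosets H)]
    refine finsum_congr (fun c => ?_)
    show cup _ _ l = 0
    rw [cup]
    refine sum_eq_zero (fun i hi => ?_)
    rw [mem_range] at hi
    by_cases hi' : N < i + 1
    · rw [hN _ (by rw [List.length_map, List.length_take]; omega), zero_mul]
    · rw [pairP_of_ne _ _ (by rw [List.length_map, List.length_drop]; omega), mul_zero]
  · intro l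
    show cup y.1.1 (xFun H b) l = diff (fun l => ∑ᶠ c : RCosets H, Φ (Quotient.out c) l) l
    rw [diff_finsum _ hΦfin]
    have h1 : ∀ c : RCosets H, diff (Φ (Quotient.out c)) l =
        cup y.1.1 (fun u => pairP b (u.map (Quotient.out c * ·))) l := by
      intro c
      have e0 : Φ (Quotient.out c) = cup (fun u => Z (u.map (Quotient.out c * ·)))
        (fun u => pairP b (u.map (Quotient.out c * ·))) := rfl
      rw [e0, leibniz _ _ (by show Z ([].map _) = 0; rw [List.map_nil, hZnil])
        (by show pairP b ([].map _) = 0; rw [List.map_nil, pairP_of_ne _ _ (by simp)])]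
      have e1 : diff (fun u => Z (u.map (Quotient.out c * ·))) = y.1.1 := by
        funext u
        rw [diff_comp_map, hZ, y.1.2.2.1]
      have e2 : diff (fun u => pairP b (u.map (Quotient.out c * ·))) = fun _ => 0 := by
        funext u
        rw [diff_comp_map, pairP, diff_diff]
      rw [e1, e2]
      have e3 : cup (sgn fun u => Z (u.map (Quotient.out c * ·))) (fun _ => 0) l = 0 := by
        simp [cup]
      rw [e3, add_zero]
    rw [finsum_congr h1, cup_finsum _ _ (finite_support hfin)]
    rfl

end main

end Pool.Agent.W_MP_49a69b_al
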