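import Pool.Agent.W_MP_49a69b_al.Elem
import Pool.Agent.W_MP_49a69b_al.Torsion

/-!
# The class `x` on `GL₂(O_{K,S})` is nonzero
-/

namespace Pool.Agent.W_MP_49a69b_al

open Polynomial IsDedekindDomain Matrix

variable {F : Type} [Field F] [Finite F] {v : HeightOneSpectrum F[X]} {r u w : F}

/-- The relation between coefficients extracted from one column. -/
theorem col_rel {k : Type} [CommRing k] [IsDomain k] {θ q : k} {K B : Matrix (Fin 2) (Fin 2) k}
    {j : Fin 2} (hB : B 1 j = q * B 0 j) (hB0 : B 0 j ≠ 0)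
    (h : (K * B) 1 j = θ * (K * B) 0 j) : K 1 0 + K 1 1 * q = θ * (K 0 0 + K 0 1 * q) := by
  rw [Matrix.mul_apply, Matrix.mul_apply, Fin.sum_univ_two, Fin.sum_univ_two, hB] at h
  apply mul_right_cancel₀ hB0
  linear_combination h

section

variable (hπ : Irreducible (quartic r u w)) (hv : v.asIdeal = Ideal.span {quartic r u w})

/-- The point `θ = Q + T` in the residue field. -/
noncomputable def theta (r u w : F) : AdjoinRoot (quartic r u w) :=
  AdjoinRoot.mk (quartic r u w) (Qp r + X)

omit [Finite F] in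
theorem const_of_rep_zero {π : F[X]} {g : Gam v} {M : Matrix (Fin 2) (Fin 2) F[X]}
    (h : Rep π g 0 M) (i j : Fin 2) : M i j = C ((M i j).coeff 0) := by
  apply eq_C_of_natDegree_le_zero
  have := h.deg i j
  rwa [zero_mul] at this

include hπ hv in
/-- Elements of level zero are not in the cone. -/
theorem not_inCone_zero {θ : AdjoinRoot (quartic r u w)} {g : Gam v}
    {M : Matrix (Fin 2) (Fin 2) F[X]} (h : Rep (quartic r u w) g 0 M)
    (hp : Prim (quartic r u w) M) : ¬ InCone (quartic r u w) θ g := by
  have : Fact (Irreducible (quartic r u w)) := ⟨hπ⟩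
  rw [inCone_iff hπ h hp]
  intro hc
  obtain ⟨c, hc0, hdet⟩ := det_const hπ hv g
  have h1 := det_rep h hdet
  rw [mul_zero, pow_zero, mul_one, Matrix.det_fin_two] at h1
  have h2 := congrArg (AdjoinRoot.mk (quartic r u w)) h1
  rw [map_sub, map_mul, map_mul, hc 0, hc 1] at h2
  apply mk_C_ne hπ hc0
  rw [← h2]; ring

include hπ in
theorem det_const_rep {g : Gam v} {M : Matrix (Fin 2) (Fin 2) F[X]}
    (h : Rep (quartic r u w) g 0 M) {c : F} (hc0 : c ≠ 0) (hc : (mat g).det = inc F (C c)) :
    (M 0 0).coeff 0 * (M 1 1).coeff 0 - (M 0 1).coeff 0 * (M 1 0).coeff 0 ≠ 0 := by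
  have h1 := det_rep h hc
  rw [mul_zero, pow_zero, mul_one, Matrix.det_fin_two, const_of_rep_zero h 0 0,
    const_of_rep_zero h 1 1, const_of_rep_zero h 0 1, const_of_rep_zero h 1 0, ← C_mul, ← C_mul,
    ← C_sub] at h1
  have h2 := C_injective h1
  rw [h2]; exact hc0

include hπ in
theorem quad_fixed [Fintype F] :
    have : Fact (Irreducible (quartic r u w)) := ⟨hπ⟩
    Phi F (AdjoinRoot (quartic r u w)) (Phi F (AdjoinRoot (quartic r u w))
      (AdjoinRoot.mk (quartic r u w) (Qp r))) = AdjoinRoot.mk (quartic r u w) (Qp r) := by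
  intro this
  apply phi_phi_of_quadratic (s := u) (t := w)
  have h1 : AdjoinRoot.mk (quartic r u w) (Qp r ^ 2 + C u * Qp r + C w) = 0 :=
    AdjoinRoot.mk_self
  rw [map_add, map_add, map_mul, map_pow, AdjoinRoot.mk_C, AdjoinRoot.mk_C] at h1
  rw [AdjoinRoot.algebraMap_eq]
  exact h1

include hπ hv in
/-- The main computation: the cones of `μ` and `μ g₀` differ only if `μ` is a scalar. -/
theorem scalar_of_ne {g₀ : Gam v} (h₀ : Rep (quartic r u w) g₀ 1 (M0 r u w)) {μ : Gam v}
    (hne : ¬ (InCone (quartic r u w) (theta r u w) μ ↔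
      InCone (quartic r u w) (theta r u w) (μ * g₀))) : μ ∈ scalars v := by
  have hF : Fact (Irreducible (quartic r u w)) := ⟨hπ⟩
  have : Fintype F := Fintype.ofFinite F
  have hτ := root_not_fixed (F := F) (quartic_natDegree r u w)
  have hQ := quad_fixed hπ
  have hθ : theta r u w = AdjoinRoot.mk (quartic r u w) (Qp r) +
      AdjoinRoot.root (quartic r u w) := by
    rw [theta, map_add, AdjoinRoot.mk_X]
  have hm : ∀ c : F, AdjoinRoot.mk (quartic r u w) (C c) =
      algebraMap F (AdjoinRoot (quartic r u w)) c := fun c => AdjoinRoot.mk_C c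
  have hM0p : Prim (quartic r u w) (M0 r u w) := ⟨0, 1, by
    show ¬ quartic r u w ∣ X + C u
    exact M0_ne⟩
  have hX : AdjoinRoot.mk (quartic r u w) (X + C u) ≠ 0 := by
    rw [Ne, AdjoinRoot.mk_eq_zero]; exact M0_ne
  obtain ⟨n, M, hM, hMp⟩ := exists_prim_rep hπ hv μ
  obtain ⟨m, N, hN, hNp⟩ := exists_prim_rep hπ hv (μ * g₀)
  obtain ⟨c, hc0, hc⟩ := det_const hπ hv μ
  obtain ⟨h2, h3⟩ := key hπ hM hMp hN hNp hc0 hc hne
  rw [inv_mul_cancel_left] at h2
  have h4 := (prim_unique hπ h2 h₀ h3 hM0p).1
  rcases Nat.eq_zero_or_pos n with hn | hn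
  · -- `μ` has level zero
    subst hn
    have hm1 : m = 1 := by omega
    subst hm1
    have h5 := not_inCone_zero hπ hv (θ := theta r u w) hM hMp
    have h6 : InCone (quartic r u w) (theta r u w) (μ * g₀) := by
      by_contra h; exact hne ⟨fun h' => absurd h' h5, fun h' => absurd h' h⟩
    rw [inCone_iff hπ hN hNp] at h6
    have h7 : N = M * M0 r u w := by
      have h8 := hM.mul h₀
      rw [zero_add] at h8
      ext1 i j
      apply inc_injective
      rw [← hN.entry, ← h8.entry]
    have h9 := h6 1
    have hB : (red (quartic r u w) (M0 r u w)) 1 1 =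
        theta r u w * (red (quartic r u w) (M0 r u w)) 0 1 := by
      have := M0_col (r := r) (u := u) (w := w) 1
      rw [← AdjoinRoot.mk_eq_mk] at this
      rw [map_mul] at this
      exact this
    have h10 := col_rel (K := red (quartic r u w) M) hB hX (by
      have h11 : red (quartic r u w) M * red (quartic r u w) (M0 r u w) =
        red (quartic r u w) N := by rw [h7, RingHom.map_mul (red (quartic r u w))]
      rw [h11]
      exact h9)
    have h12 : ∀ i j, (red (quartic r u w) M) i j =
        algebraMap F (AdjoinRoot (quartic r u w)) ((M i j).coeff 0) := by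
      intro i j
      rw [← hm, ← const_of_rep_zero hM i j]
      rfl
    rw [h12, h12, h12, h12, hθ] at h10
    obtain ⟨hb, hc', had⟩ := theta_stab hτ hQ h10
    -- `μ` is scalar
    have ha0 : (M 0 0).coeff 0 ≠ 0 := by
      have := det_const_rep hπ hM hc0 hc
      intro h
      rw [hb, h] at this
      simp at this
    refine ⟨Units.mk0 _ ha0, ?_⟩
    apply mat_injective
    rw [mat_scal]
    have h13 := hM.eq
    rw [pow_zero, one_smul] at h13
    rw [h13]
    ext i j
    fin_cases i <;> fin_cases j
    · show inc F (C _) * 1 = inc F (M 0 0)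
      rw [mul_one, Units.val_mk0, ← const_of_rep_zero hM 0 0]
    · show inc F (C _) * 0 = inc F (M 0 1)
      rw [mul_zero, const_of_rep_zero hM 0 1, hb, C_0, map_zero]
    · show inc F (C _) * 0 = inc F (M 1 0)
      rw [mul_zero, const_of_rep_zero hM 1 0, hc', C_0, map_zero]
    · show inc F (C _) * 1 = inc F (M 1 1)
      rw [mul_one, Units.val_mk0, had, ← const_of_rep_zero hM 1 1]
  · -- `μ g₀` has level zero
    exfalso
    have hm0 : m = 0 := by omega
    subst hm0
    have hn1 : n = 1 := by omega
    subst hn1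
    have h5 := not_inCone_zero hπ hv (θ := theta r u w) hN hNp
    have h6 : InCone (quartic r u w) (theta r u w) μ := by
      by_contra h; exact hne ⟨fun h' => absurd h' h, fun h' => absurd h' h5⟩
    rw [inCone_iff hπ hM hMp] at h6
    have hdet0 : (mat g₀).det = inc F (C 1) := by
      have h7 := congrArg Matrix.det h₀.eq
      rw [Matrix.det_smul, ← RingHom.map_det, M0_det, Fintype.card_fin, map_pow, pow_one] at h7
      have h8 : (inc F (quartic r u w)) ^ 2 ≠ 0 := pow_ne_zero _ (inc_pi_ne hπ)
      apply mul_left_cancel₀ h8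
      rw [h7, C_1, map_one, mul_one]
    have hinv := rep_inv h₀ one_ne_zero hdet0
    rw [inv_one, C_1, one_smul] at hinv
    have h7 : M = N * (M0 r u w).adjugate := by
      have h8 := hN.mul hinv
      rw [zero_add, mul_inv_cancel_right] at h8
      ext1 i j
      apply inc_injective
      rw [← hM.entry, ← h8.entry]
    have hB : (red (quartic r u w) (M0 r u w).adjugate) 1 1 =
        AdjoinRoot.mk (quartic r u w) (Qp r) *
          (red (quartic r u w) (M0 r u w).adjugate) 0 1 := by
      have := M0_adj (r := r) (u := u) (w := w) 1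
      rw [← AdjoinRoot.mk_eq_mk] at this
      rw [map_mul] at this
      exact this
    have hB0 : (red (quartic r u w) (M0 r u w).adjugate) 0 1 ≠ 0 := by
      have h8 : (red (quartic r u w) (M0 r u w).adjugate) 0 1 =
          AdjoinRoot.mk (quartic r u w) (-(X + C u)) := by
        show AdjoinRoot.mk (quartic r u w) ((M0 r u w).adjugate 0 1) = _
        rw [Matrix.adjugate_fin_two]
        rfl
      rw [h8, map_neg, neg_ne_zero]
      exact hX
    have h9 := h6 1
    have h10 := col_rel (K := red (quartic r u w) N) hB hB0 (by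
      have h11 : red (quartic r u w) N * red (quartic r u w) (M0 r u w).adjugate =
        red (quartic r u w) M := by rw [h7, RingHom.map_mul (red (quartic r u w))]
      rw [h11]
      exact h9)
    have h12 : ∀ i j, (red (quartic r u w) N) i j =
        algebraMap F (AdjoinRoot (quartic r u w)) ((N i j).coeff 0) := by
      intro i j
      rw [← hm, ← const_of_rep_zero hN i j]
      rfl
    rw [h12, h12, h12, h12, hθ] at h10
    obtain ⟨c', hc'0, hc'⟩ := det_const hπ hv (μ * g₀)
    exact theta_orbit hτ hQ (det_const_rep hπ hN hc'0 hc') h10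

include hπ hv in
theorem inCone_g0 {g₀ : Gam v} (h₀ : Rep (quartic r u w) g₀ 1 (M0 r u w)) :
    InCone (quartic r u w) (theta r u w) g₀ := by
  refine ⟨1, M0 r u w, h₀, ⟨0, 1, by
    show ¬ quartic r u w ∣ X + C u
    exact M0_ne⟩, fun j => ?_⟩
  have := M0_col (r := r) (u := u) (w := w) j
  rw [← AdjoinRoot.mk_eq_mk] at this
  rw [map_mul] at this
  exact this

include hπ hv in
theorem not_inCone_one : ¬ InCone (quartic r u w) (theta r u w) (1 : Gam v) := by
  have h1 : Rep (quartic r u w) (1 : Gam v) 0 1 := by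
    refine ⟨by rw [pow_zero, one_smul, mat_one, map_one], fun i j => ?_⟩
    fin_cases i <;> fin_cases j <;> simp
  have h2 : Prim (quartic r u w) (1 : Matrix (Fin 2) (Fin 2) F[X]) := ⟨0, 0, by
    show ¬ quartic r u w ∣ 1
    exact fun h => hπ.not_isUnit (isUnit_of_dvd_one h)⟩
  exact not_inCone_zero hπ hv h1 h2

end

end Pool.Agent.W_MP_49a69b_al
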