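import Mathlib

/-!
# `S`-integers of a function field; the case of `F(T)` and one finite place
-/

namespace Pool.Agent.W_MP_49a69b_al

open Polynomial IsDedekindDomain

/-- The ring `O_{K,S}` of elements of `K` that are regular at every place outside `S`. The places
of `K` are its valuation subrings different from `K` itself. -/
def sIntegers (K : Type) [Field K] (S : Set (ValuationSubring K)) : Subring K where
  carrier := {x | ∀ V : ValuationSubring K, V ≠ ⊤ → V ∉ S → x ∈ V}
  zero_mem' := fun V _ _ => V.zero_mem
  one_mem' := fun V _ _ => V.one_mem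
  add_mem' := fun hx hy V h1 h2 => V.add_mem _ _ (hx V h1 h2) (hy V h1 h2)
  mul_mem' := fun hx hy V h1 h2 => V.mul_mem _ _ (hx V h1 h2) (hy V h1 h2)
  neg_mem' := fun hx V h1 h2 => V.neg_mem _ (hx V h1 h2)

theorem mem_sIntegers {K : Type} [Field K] {S : Set (ValuationSubring K)} {x : K} :
    x ∈ sIntegers K S ↔ ∀ V : ValuationSubring K, V ≠ ⊤ → V ∉ S → x ∈ V := Iff.rfl

section

variable {F : Type} [Field F]

/-- The place of `F(T)` attached to a maximal ideal of `F[T]`. -/
noncomputable def place (v : HeightOneSpectrum F[X]) : ValuationSubring (RatFunc F) :=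
  (v.valuation (RatFunc F)).valuationSubring

theorem mem_place {v : HeightOneSpectrum F[X]} {x : RatFunc F} :
    x ∈ place v ↔ v.valuation (RatFunc F) x ≤ 1 := Iff.rfl

/-- Valuation rings containing `F[T]` in which `p` is not a unit are determined by `p`. -/
theorem le_of_nonunit {p : F[X]} (hp : Irreducible p) (V W : ValuationSubring (RatFunc F))
    (hV : ∀ f : F[X], V.valuation (algebraMap F[X] (RatFunc F) f) ≤ 1)
    (hW : ∀ f : F[X], W.valuation (algebraMap F[X] (RatFunc F) f) ≤ 1)
    (hVp : V.valuation (algebraMap F[X] (RatFunc F) p) < 1)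
    (hWp : W.valuation (algebraMap F[X] (RatFunc F) p) < 1) : V ≤ W := by
  have unit : ∀ U : ValuationSubring (RatFunc F),
      (∀ f : F[X], U.valuation (algebraMap F[X] (RatFunc F) f) ≤ 1) →
      U.valuation (algebraMap F[X] (RatFunc F) p) < 1 → ∀ b : F[X], ¬ p ∣ b →
      U.valuation (algebraMap F[X] (RatFunc F) b) = 1 := by
    intro U hU hUp b hb
    by_contra hne
    have hlt : U.valuation (algebraMap F[X] (RatFunc F) b) < 1 := lt_of_le_of_ne (hU b) hne
    obtain ⟨u, w, huw⟩ := (hp.coprime_iff_not_dvd).mpr hb
    have h1 : U.valuation (algebraMap F[X] (RatFunc F) (u * p + w * b)) < 1 := by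
      rw [map_add]
      refine lt_of_le_of_lt (U.valuation.map_add _ _) (max_lt ?_ ?_)
      · rw [map_mul, map_mul]
        exact lt_of_le_of_lt (mul_le_mul_left (hU u) _) (by rwa [one_mul])
      · rw [map_mul, map_mul]
        exact lt_of_le_of_lt (mul_le_mul_left (hU w) _) (by rwa [one_mul])
    rw [huw, map_one, map_one] at h1
    exact lt_irrefl _ h1
  intro x hx
  rw [← ValuationSubring.valuation_le_one_iff] at hx ⊢
  have hd : x.denom ≠ 0 := x.denom_ne_zero
  have hx' : x = algebraMap F[X] (RatFunc F) x.num / algebraMap F[X] (RatFunc F) x.denom :=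
    (x.num_div_denom).symm
  by_cases hpd : p ∣ x.denom
  · exfalso
    have hpn : ¬ p ∣ x.num := by
      intro h
      exact hp.not_isUnit ((x.isCoprime_num_denom).isUnit_of_dvd' h hpd)
    have h1 := unit V hV hVp x.num hpn
    have h2 : V.valuation (algebraMap F[X] (RatFunc F) x.denom) < 1 := by
      obtain ⟨c, hc⟩ := hpd
      rw [hc, map_mul, map_mul]
      exact lt_of_le_of_lt (mul_le_mul_right (hV c) _) (by rwa [mul_one])
    have h3 : V.valuation (algebraMap F[X] (RatFunc F) x.denom) ≠ 0 := by
      rw [Valuation.ne_zero_iff]
      simpa using hd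
    rw [hx', map_div₀, h1] at hx
    rw [div_le_one₀ (zero_lt_iff.mpr h3)] at hx
    exact absurd hx (not_le.mpr h2)
  · rw [hx', map_div₀, unit W hW hWp _ hpd, div_one]
    exact hW _

theorem valuation_place_isEquiv (v : HeightOneSpectrum F[X]) (x : RatFunc F) :
    ((place v).valuation x ≤ 1 ↔ v.valuation (RatFunc F) x ≤ 1) ∧
    ((place v).valuation x < 1 ↔ v.valuation (RatFunc F) x < 1) := by
  have h := (v.valuation (RatFunc F)).isEquiv_valuation_valuationSubring
  exact ⟨h.symm.le_one_iff_le_one, h.symm.lt_one_iff_lt_one⟩

variable {π : F[X]} (hπ : Irreducible π) {v : HeightOneSpectrum F[X]}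
  (hv : v.asIdeal = Ideal.span {π})

include hv in
theorem val_pi_lt : v.valuation (RatFunc F) (algebraMap F[X] (RatFunc F) π) < 1 := by
  rw [HeightOneSpectrum.valuation_lt_one_iff_mem, hv]
  exact Ideal.mem_span_singleton_self π

include hπ hv in
/-- Description of the ring of functions regular outside the place `π`. -/
theorem mem_sIntegers_iff [Finite F] (x : RatFunc F) :
    x ∈ sIntegers (RatFunc F) {place v} ↔
      ∃ (n : ℕ) (f : F[X]), f.natDegree ≤ n * π.natDegree ∧
        x * (algebraMap F[X] (RatFunc F) π) ^ n = algebraMap F[X] (RatFunc F) f := by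
  classical
  have hπ0 : (algebraMap F[X] (RatFunc F) π) ≠ 0 := by
    simpa using hπ.ne_zero
  constructor
  · intro hx
    rw [mem_sIntegers] at hx
    -- the denominator is a power of `π`
    have hden : ∃ n : ℕ, x.denom ∣ π ^ n := by
      have h1 : ∀ p : F[X], Irreducible p → p ∣ x.denom → Associated p π := by
        intro p hp hpd
        by_contra hna
        let w : HeightOneSpectrum F[X] := ⟨Ideal.span {p},
          (Ideal.span_singleton_prime hp.ne_zero).mpr hp.prime, by
            rw [Ne, Ideal.span_singleton_eq_bot]; exact hp.ne_zero⟩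
        have hwp : w.valuation (RatFunc F) (algebraMap F[X] (RatFunc F) p) < 1 := val_pi_lt rfl
        have hxw := hx (place w) ?_ ?_
        · rw [mem_place] at hxw
          have hpn : ¬ p ∣ x.num := by
            intro h
            exact hp.not_isUnit ((x.isCoprime_num_denom).isUnit_of_dvd' h hpd)
          have hn : w.valuation (RatFunc F) (algebraMap F[X] (RatFunc F) x.num) = 1 := by
            rw [HeightOneSpectrum.valuation_eq_one_iff_notMem]
            intro hc
            exact hpn (Ideal.mem_span_singleton.mp hc)
          have hd : w.valuation (RatFunc F) (algebraMap F[X] (RatFunc F) x.denom) < 1 := by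
            rw [HeightOneSpectrum.valuation_lt_one_iff_mem]
            exact Ideal.mem_span_singleton.mpr hpd
          have h3 : w.valuation (RatFunc F) (algebraMap F[X] (RatFunc F) x.denom) ≠ 0 := by
            rw [Valuation.ne_zero_iff]
            simpa using x.denom_ne_zero
          rw [← x.num_div_denom, map_div₀, hn, div_le_one₀ (zero_lt_iff.mpr h3)] at hxw
          exact absurd hxw (not_le.mpr hd)
        · intro htop
          have : (algebraMap F[X] (RatFunc F) p)⁻¹ ∈ place w := by rw [htop]; trivial
          rw [mem_place, map_inv₀] at this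
          have h0 : w.valuation (RatFunc F) (algebraMap F[X] (RatFunc F) p) ≠ 0 := by
            rw [Valuation.ne_zero_iff]
            simpa using hp.ne_zero
          rw [inv_le_one₀ (zero_lt_iff.mpr h0)] at this
          exact absurd hwp (not_lt.mpr this)
        · intro heq
          have heq' : place w = place v := heq
          have : (algebraMap F[X] (RatFunc F) π)⁻¹ ∈ place w := by
            rw [mem_place, map_inv₀]
            have : w.valuation (RatFunc F) (algebraMap F[X] (RatFunc F) π) = 1 := by
              rw [HeightOneSpectrum.valuation_eq_one_iff_notMem]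
              intro hc
              exact hna ((hp.dvd_irreducible_iff_associated hπ).mp (Ideal.mem_span_singleton.mp hc))
            rw [this, inv_one]
          rw [heq', mem_place, map_inv₀] at this
          have h0 : v.valuation (RatFunc F) (algebraMap F[X] (RatFunc F) π) ≠ 0 := by
            rw [Valuation.ne_zero_iff]; exact hπ0
          rw [inv_le_one₀ (zero_lt_iff.mpr h0)] at this
          exact absurd (val_pi_lt hv) (not_lt.mpr this)
      -- induction on the factorization
      have h2 : ∀ d : F[X], d ≠ 0 → (∀ p : F[X], Irreducible p → p ∣ d → Associated p π) →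
          ∃ n : ℕ, d ∣ π ^ n := by
        intro d
        induction d using WfDvdMonoid.induction_on_irreducible with
        | zero => intro h; exact absurd rfl h
        | unit u hu => intro _ _; exact ⟨0, by rw [pow_zero]; exact hu.dvd⟩
        | mul a i ha hi ih =>
          intro _ h
          obtain ⟨n, hn⟩ := ih ha (fun p hp hpa => h p hp (hpa.mul_left i))
          have h3 := h i hi (dvd_mul_right i a)
          refine ⟨n + 1, ?_⟩
          rw [pow_succ, mul_comm]
          exact mul_dvd_mul hn h3.dvd
      exact h2 x.denom x.denom_ne_zero h1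
    obtain ⟨n, c, hc⟩ := hden
    refine ⟨n, x.num * c, ?_, ?_⟩
    · -- degree condition from the place at infinity
      by_cases hx0 : x = 0
      · rw [hx0]; simp
      have hinf := hx (RatFunc.inftyValuation F).valuationSubring ?_ ?_
      · have hinf' : RatFunc.inftyValuation F x ≤ 1 := hinf
        rw [RatFunc.inftyValuation_apply, RatFunc.inftyValuation_of_nonzero F hx0,
          ← WithZero.exp_zero, WithZero.exp_le_exp] at hinf'
        have h4 : x.intDegree = (x.num.natDegree : ℤ) - (x.denom.natDegree : ℤ) := rfl
        have hc0 : c ≠ 0 := by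
          rintro rfl
          rw [mul_zero] at hc
          exact pow_ne_zero n hπ.ne_zero hc
        have hn0 : x.num ≠ 0 := RatFunc.num_ne_zero hx0
        have h5 := congrArg natDegree hc
        rw [natDegree_pow, natDegree_mul x.denom_ne_zero hc0] at h5
        rw [natDegree_mul hn0 hc0]
        omega
      · intro htop
        have : (RatFunc.X : RatFunc F) ∈ (RatFunc.inftyValuation F).valuationSubring := by
          rw [htop]; trivial
        have h6 : RatFunc.inftyValuation F RatFunc.X ≤ 1 := this
        rw [RatFunc.inftyValuation.X, ← WithZero.exp_zero, WithZero.exp_le_exp] at h6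
        omega
      · intro heq
        have heq' : (RatFunc.inftyValuation F).valuationSubring = place v := heq
        have : (RatFunc.X : RatFunc F) ∈ place v := by
          rw [mem_place, ← RatFunc.algebraMap_X]
          exact HeightOneSpectrum.valuation_le_one v X
        rw [← heq'] at this
        have h6 : RatFunc.inftyValuation F RatFunc.X ≤ 1 := this
        rw [RatFunc.inftyValuation.X, ← WithZero.exp_zero, WithZero.exp_le_exp] at h6
        omega
    · rw [← map_pow, hc, map_mul, map_mul]
      have h7 : x * algebraMap F[X] (RatFunc F) x.denom = algebraMap F[X] (RatFunc F) x.num := by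
        have h8 : algebraMap F[X] (RatFunc F) x.denom ≠ 0 := by simpa using x.denom_ne_zero
        exact ((div_eq_iff h8).mp x.num_div_denom).symm
      rw [← mul_assoc, h7]
  · rintro ⟨n, f, hf, hxf⟩
    rw [mem_sIntegers]
    intro V hV hVS
    rw [Set.mem_singleton_iff] at hVS
    have hx' : x = algebraMap F[X] (RatFunc F) f / (algebraMap F[X] (RatFunc F) π) ^ n := by
      rw [eq_div_iff (pow_ne_zero n hπ0), hxf]
    by_cases hf0 : f = 0
    · rw [hx', hf0, map_zero, zero_div]; exact V.zero_mem
    rw [← ValuationSubring.valuation_le_one_iff]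
    rcases lt_or_ge 1 (V.valuation RatFunc.X) with hX | hX
    · have hx0 : x ≠ 0 := by
        rw [hx']
        exact div_ne_zero (by simpa using hf0) (pow_ne_zero n hπ0)
      rw [RatFunc.valuation_eq_valuation_X_zpow_intDegree_of_one_lt_valuation_X hX hx0]
      have hdeg : x.intDegree ≤ 0 := by
        rw [hx', ← map_pow, RatFunc.intDegree_div (by simpa using hf0)
          (by simpa using pow_ne_zero n hπ.ne_zero), RatFunc.intDegree_polynomial,
          RatFunc.intDegree_polynomial, natDegree_pow]
        omega
      exact zpow_le_one_of_nonpos₀ hX.le hdeg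
    · have hpoly : ∀ g : F[X], V.valuation (algebraMap F[X] (RatFunc F) g) ≤ 1 := fun g =>
        Polynomial.valuation_le_one_of_valuation_X_le_one _ hX g
      rcases lt_or_eq_of_le (hpoly π) with hlt | heq
      · exfalso
        apply hVS
        have hP1 : ∀ g : F[X], (place v).valuation (algebraMap F[X] (RatFunc F) g) ≤ 1 :=
          fun g => ((valuation_place_isEquiv v _).1).mpr (HeightOneSpectrum.valuation_le_one v g)
        have hP2 : (place v).valuation (algebraMap F[X] (RatFunc F) π) < 1 :=
          ((valuation_place_isEquiv v _).2).mpr (val_pi_lt hv)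
        exact le_antisymm (le_of_nonunit hπ V (place v) hpoly hP1 hlt hP2)
          (le_of_nonunit hπ (place v) V hP1 hpoly hP2 hlt)
      · rw [hx', map_div₀, map_pow, heq, one_pow, div_one]
        exact hpoly f

end

end Pool.Agent.W_MP_49a69b_al
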